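import Mathlib
import Pool.Agent.BakerQi.Schwarz

set_option autoImplicit false

/-!
A Schwarz lemma for functions which are only small (with their derivatives) at `0, …, S - 1`:
subtract a Hermite interpolation polynomial, whose coefficients are bounded by Cramer's rule.
-/

namespace Pool.Agent.BakerGap

open Complex Finset Polynomial Pool.Agent.BakerQi

theorem iteratedDeriv_eval (P : ℂ[X]) (r : ℕ) (z : ℂ) :
    iteratedDeriv r (fun z => P.eval z) z = (derivative^[r] P).eval z := by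
  induction r generalizing P with
  | zero => simp
  | succ r ih =>
    rw [iteratedDeriv_succ']
    have h : deriv (fun z => P.eval z) = fun z => (derivative P).eval z := by
      funext z; exact Polynomial.deriv _
    rw [h, ih, Function.iterate_succ_apply]

/-- Entries of the confluent Vandermonde matrix. -/
def hent (s r j : ℕ) : ℕ := j.descFactorial r * s ^ (j - r)

theorem eval_iterate_X_pow (j r s : ℕ) :
    (derivative^[r] (X ^ j : ℂ[X])).eval (s : ℂ) = (hent s r j : ℂ) := by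
  rw [iterate_derivative_X_pow_eq_natCast_mul, hent]
  simp

/-- The confluent Vandermonde matrix. -/
noncomputable def hmat (S t : ℕ) : Matrix (Fin S × Fin t) (Fin S × Fin t) ℤ :=
  Matrix.of fun p q => (hent p.1 p.2 (finProdFinEquiv q : Fin (S * t)) : ℤ)

/-- The polynomial with coefficient vector `v`. -/
noncomputable def hpoly {S t : ℕ} (v : Fin S × Fin t → ℂ) : ℂ[X] :=
  ∑ q, C (v q) * X ^ ((finProdFinEquiv q : Fin (S * t)) : ℕ)

theorem hpoly_coeff {S t : ℕ} (v : Fin S × Fin t → ℂ) (q : Fin S × Fin t) :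
    (hpoly v).coeff ((finProdFinEquiv q : Fin (S * t)) : ℕ) = v q := by
  rw [hpoly, finsetSum_coeff, Finset.sum_eq_single q]
  · simp
  · intro q' _ hne
    rw [coeff_C_mul, coeff_X_pow, if_neg, mul_zero]
    intro h
    exact hne (finProdFinEquiv.injective (Fin.ext h)).symm
  · intro h; exact absurd (mem_univ _) h

theorem hpoly_natDegree_lt {S t : ℕ} (h0 : 0 < S * t) (v : Fin S × Fin t → ℂ) :
    (hpoly v).natDegree < S * t := by
  have h1 : (hpoly v).natDegree ≤ S * t - 1 := by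
    refine natDegree_sum_le_of_forall_le _ _ fun q _ => ?_
    refine (natDegree_C_mul_X_pow_le _ _).trans ?_
    have := (finProdFinEquiv q : Fin (S * t)).2
    omega
  omega

theorem hpoly_eval_iterate {S t : ℕ} (v : Fin S × Fin t → ℂ) (p : Fin S × Fin t) :
    (derivative^[(p.2 : ℕ)] (hpoly v)).eval ((p.1 : ℕ) : ℂ) =
      ((hmat S t).map (Int.castRingHom ℂ)).mulVec v p := by
  rw [hpoly, iterate_derivative_sum, eval_finsetSum, Matrix.mulVec]
  refine Finset.sum_congr rfl fun q _ => ?_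
  rw [iterate_derivative_C_mul, eval_mul, eval_C, eval_iterate_X_pow]
  simp [hmat, mul_comm]

theorem hmat_det_ne_zero (S t : ℕ) : (hmat S t).det ≠ 0 := by
  rcases Nat.eq_zero_or_pos (S * t) with h0 | h0
  · have : IsEmpty (Fin S × Fin t) := by
      rcases Nat.mul_eq_zero.1 h0 with rfl | rfl
      · exact ⟨fun q => Fin.elim0 q.1⟩
      · exact ⟨fun q => Fin.elim0 q.2⟩
    rw [Matrix.det_isEmpty]
    exact one_ne_zero
  intro hdet
  have hdet' : ((hmat S t).map (Int.castRingHom ℂ)).det = 0 := by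
    rw [← RingHom.mapMatrix_apply, ← RingHom.map_det, hdet, map_zero]
  obtain ⟨v, hv0, hv⟩ := Matrix.exists_mulVec_eq_zero_iff.2 hdet'
  have hP0 : hpoly v ≠ 0 := by
    intro h
    apply hv0
    funext q
    rw [← hpoly_coeff v q, h, coeff_zero]
    rfl
  have ht : 0 < t := Nat.pos_of_mul_pos_left h0
  have hroot : ∀ s ∈ range S, (X - C ((s : ℕ) : ℂ)) ^ t ∣ hpoly v := by
    intro s hs
    have hs' := mem_range.1 hs
    have h1 : t - 1 < (hpoly v).rootMultiplicity ((s : ℕ) : ℂ) := by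
      refine lt_rootMultiplicity_of_isRoot_iterate_derivative hP0 fun m hm => ?_
      have h2 := hpoly_eval_iterate v (⟨s, hs'⟩, ⟨m, by omega⟩)
      rw [hv] at h2
      exact h2
    exact (pow_dvd_pow _ (by omega)).trans (pow_rootMultiplicity_dvd _ _)
  have hprod : (∏ s ∈ range S, (X - C ((s : ℕ) : ℂ)) ^ t) ∣ hpoly v := by
    refine Finset.prod_dvd_of_coprime ?_ hroot
    intro s _ s' _ hne
    apply IsCoprime.pow
    exact pairwise_coprime_X_sub_C (fun a b h => by exact_mod_cast h) hne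
  have hdeg := natDegree_le_of_dvd hprod hP0
  have h3 : (∏ s ∈ range S, (X - C ((s : ℕ) : ℂ)) ^ t).natDegree = S * t := by
    rw [natDegree_prod_of_monic _ _ fun s _ => (monic_X_sub_C _).pow t]
    simp only [natDegree_pow, natDegree_X_sub_C, mul_one, Finset.sum_const, card_range, smul_eq_mul]
  rw [h3] at hdeg
  have := hpoly_natDegree_lt h0 v
  omega

/-- Existence of the interpolation polynomial with explicit bounds. -/
theorem exists_hermite (S t : ℕ) (Y δ : ℝ) (hY : 1 ≤ Y) (hSt : (S * t : ℕ) ≤ Y) (hSY : (S : ℝ) ≤ Y)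
    (hδ : 0 < δ) (b : Fin S × Fin t → ℂ) (hb : ∀ q, ‖b q‖ ≤ δ) :
    ∃ P : ℂ[X], (∀ p : Fin S × Fin t, (derivative^[(p.2 : ℕ)] P).eval ((p.1 : ℕ) : ℂ) = b p) ∧
      ∀ z : ℂ, ‖z‖ ≤ Y → ‖P.eval z‖ ≤ δ * Y ^ (5 * (S * t) ^ 2) := by
  classical
  rcases Nat.eq_zero_or_pos (S * t) with h0 | h0
  · have hE : IsEmpty (Fin S × Fin t) := by
      rcases Nat.mul_eq_zero.1 h0 with rfl | rfl
      · exact ⟨fun q => Fin.elim0 q.1⟩
      · exact ⟨fun q => Fin.elim0 q.2⟩
    refine ⟨0, fun p => (hE.false p).elim, fun z _ => ?_⟩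
    simp only [eval_zero, norm_zero]
    positivity
  set N := S * t with hN
  set M : Matrix (Fin S × Fin t) (Fin S × Fin t) ℂ := (hmat S t).map (Int.castRingHom ℂ) with hM
  have hcard : Fintype.card (Fin S × Fin t) = N := by simp [hN]
  have hdet : 1 ≤ ‖M.det‖ := by
    have h1 : M.det = (((hmat S t).det : ℤ) : ℂ) := by
      rw [hM, ← RingHom.mapMatrix_apply, ← RingHom.map_det]; rfl
    rw [h1, Complex.norm_intCast]
    exact_mod_cast Int.one_le_abs (hmat_det_ne_zero S t)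
  have hdet0 : M.det ≠ 0 := by
    intro h
    rw [h, norm_zero] at hdet
    linarith
  have hY0 : (0 : ℝ) < Y := by linarith
  -- entries
  have hE : ∀ p q, ‖M p q‖ ≤ Y ^ (2 * N) := by
    intro p q
    have h1 : M p q = ((hent p.1 p.2 (finProdFinEquiv q : Fin (S * t)) : ℕ) : ℂ) := by
      simp [hM, hmat]
    rw [h1, Complex.norm_natCast, hent]
    push_cast
    have hq := (finProdFinEquiv q : Fin (S * t)).2
    set j := ((finProdFinEquiv q : Fin (S * t)) : ℕ) with hj
    have h2 : ((j.descFactorial p.2 : ℕ) : ℝ) ≤ Y ^ N := by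
      rcases Nat.lt_or_ge j p.2 with h3 | h3
      · rw [Nat.descFactorial_eq_zero_iff_lt.2 h3]
        simp only [Nat.cast_zero]
        positivity
      · calc ((j.descFactorial p.2 : ℕ) : ℝ) ≤ ((j ^ (p.2 : ℕ) : ℕ) : ℝ) := by
              exact_mod_cast Nat.descFactorial_le_pow _ _
          _ ≤ Y ^ (p.2 : ℕ) := by
              push_cast
              refine pow_le_pow_left₀ (by positivity) ?_ _
              have : (j : ℝ) ≤ (N : ℕ) := by exact_mod_cast hq.le
              exact this.trans hSt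
          _ ≤ Y ^ N := pow_le_pow_right₀ hY (by omega)
    have h3 : (((p.1 : ℕ) : ℝ)) ^ (j - (p.2 : ℕ)) ≤ Y ^ N := by
      calc (((p.1 : ℕ) : ℝ)) ^ (j - (p.2 : ℕ)) ≤ Y ^ (j - (p.2 : ℕ)) := by
            refine pow_le_pow_left₀ (by positivity) ?_ _
            have : ((p.1 : ℕ) : ℝ) ≤ S := by exact_mod_cast p.1.2.le
            linarith
        _ ≤ Y ^ N := pow_le_pow_right₀ hY (by omega)
    calc ((j.descFactorial p.2 : ℕ) : ℝ) * (((p.1 : ℕ) : ℝ)) ^ (j - (p.2 : ℕ)) ≤ Y ^ N * Y ^ N := by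
          gcongr
      _ = Y ^ (2 * N) := by rw [two_mul, pow_add]
  -- the solution
  set b' : Fin S × Fin t → ℂ := fun q => b q / δ with hb'
  have hb'1 : ∀ q, ‖b' q‖ ≤ 1 := by
    intro q
    rw [hb']
    simp only [norm_div, Complex.norm_real, Real.norm_eq_abs, abs_of_pos hδ]
    rw [div_le_one hδ]
    exact hb q
  have hcr : ∀ q, ‖Matrix.cramer M b' q‖ ≤ (N.factorial : ℝ) * (Y ^ (2 * N)) ^ N := by
    intro q
    rw [Matrix.cramer_apply]
    have h1 := Matrix.det_le (A := M.updateCol q b') (abv := (NormedField.toAbsoluteValue ℂ))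
      (x := Y ^ (2 * N)) (fun i j => by
        change ‖M.updateCol q b' i j‖ ≤ _
        rw [Matrix.updateCol_apply]
        split_ifs
        · exact (hb'1 i).trans (one_le_pow₀ hY)
        · exact hE i j)
    rw [hcard] at h1
    change ‖(M.updateCol q b').det‖ ≤ _ at h1
    rw [nsmul_eq_mul] at h1
    exact h1
  set v : Fin S × Fin t → ℂ := fun q => δ * (M.det)⁻¹ * Matrix.cramer M b' q with hv
  have hvb : ∀ q, ‖v q‖ ≤ δ * ((N.factorial : ℝ) * (Y ^ (2 * N)) ^ N) := by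
    intro q
    rw [hv]
    simp only [norm_mul, norm_inv, Complex.norm_real, Real.norm_eq_abs, abs_of_pos hδ]
    have h1 : ‖M.det‖⁻¹ ≤ 1 := inv_le_one_of_one_le₀ hdet
    calc δ * ‖M.det‖⁻¹ * ‖Matrix.cramer M b' q‖ ≤ δ * 1 * ((N.factorial : ℝ) * (Y ^ (2 * N)) ^ N) := by
          gcongr
          exact hcr q
      _ = _ := by ring
  have hMv : M.mulVec v = b := by
    have h1 : v = ((δ : ℂ) * (M.det)⁻¹) • Matrix.cramer M b' := by
      funext q; simp [hv]
    rw [h1, Matrix.mulVec_smul, Matrix.mulVec_cramer]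
    funext q
    simp only [Pi.smul_apply, smul_eq_mul, hb']
    have : (δ : ℂ) ≠ 0 := by exact_mod_cast hδ.ne'
    field_simp
  refine ⟨hpoly v, fun p => ?_, fun z hz => ?_⟩
  · rw [hpoly_eval_iterate, ← hM, hMv]
  · have hN1 : 1 ≤ N := h0
    have hNY : (N : ℝ) ≤ Y := hSt
    have hfac : (N.factorial : ℝ) ≤ Y ^ N := by
      calc (N.factorial : ℝ) ≤ ((N ^ N : ℕ) : ℝ) := by exact_mod_cast Nat.factorial_le_pow _
        _ = (N : ℝ) ^ N := by push_cast; ring
        _ ≤ Y ^ N := by gcongr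
    rw [hpoly, eval_finsetSum]
    refine (norm_sum_le _ _).trans ?_
    have h1 : ∀ q ∈ (univ : Finset (Fin S × Fin t)),
        ‖(C (v q) * X ^ ((finProdFinEquiv q : Fin (S * t)) : ℕ) : ℂ[X]).eval z‖ ≤
          δ * (Y ^ N * (Y ^ (2 * N)) ^ N) * Y ^ N := by
      intro q _
      rw [eval_mul, eval_C, eval_pow, eval_X, norm_mul, norm_pow]
      have h2 : ‖z‖ ^ ((finProdFinEquiv q : Fin (S * t)) : ℕ) ≤ Y ^ N := by
        calc ‖z‖ ^ ((finProdFinEquiv q : Fin (S * t)) : ℕ) ≤ Y ^ ((finProdFinEquiv q : Fin (S * t)) : ℕ) :=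
              pow_le_pow_left₀ (norm_nonneg _) hz _
          _ ≤ Y ^ N := pow_le_pow_right₀ hY (finProdFinEquiv q : Fin (S * t)).2.le
      have h3 := hvb q
      have h4 : ‖v q‖ ≤ δ * (Y ^ N * (Y ^ (2 * N)) ^ N) := h3.trans (by gcongr)
      gcongr
    refine (Finset.sum_le_card_nsmul _ _ _ h1).trans ?_
    rw [Finset.card_univ, hcard, nsmul_eq_mul]
    calc (N : ℝ) * (δ * (Y ^ N * (Y ^ (2 * N)) ^ N) * Y ^ N)
        ≤ Y * (δ * (Y ^ N * (Y ^ (2 * N)) ^ N) * Y ^ N) := by gcongr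
      _ = δ * Y ^ (1 + N + 2 * N * N + N) := by
          rw [← pow_mul, pow_add, pow_add, pow_add, pow_one]; ring
      _ ≤ δ * Y ^ (5 * N ^ 2) := by
          refine mul_le_mul_of_nonneg_left (pow_le_pow_right₀ hY ?_) hδ.le
          nlinarith

/-- The Schwarz lemma for small values. -/
theorem approx_schwarz {F : ℂ → ℂ} (hF : Differentiable ℂ F) (t S S' : ℕ) (hS : S ≤ S')
    (hS' : 0 < S') (Y δ : ℝ) (hδ : 0 < δ) (hSt : (S * t : ℕ) ≤ Y) (hSY : 3 * (S' : ℝ) ≤ Y)
    (h : ∀ s < S, ∀ r < t, ‖iteratedDeriv r F (s : ℂ)‖ ≤ δ) (M : ℝ)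
    (hM : ∀ z : ℂ, ‖z‖ ≤ 3 * S' → ‖F z‖ ≤ M) (s' : ℕ) (hs' : s' < S') :
    ‖F (s' : ℂ)‖ ≤ M / 2 ^ (t * S) + 2 * (δ * Y ^ (5 * (S * t) ^ 2)) := by
  have hS1 : (1 : ℝ) ≤ S' := by exact_mod_cast hS'
  have hY : 1 ≤ Y := by linarith
  have hSS : (S : ℝ) ≤ S' := by exact_mod_cast hS
  obtain ⟨P, hP, hPb⟩ := exists_hermite S t Y δ hY hSt (by linarith) hδ
    (fun q => iteratedDeriv (q.2 : ℕ) F ((q.1 : ℕ) : ℂ)) (fun q => h _ q.1.2 _ q.2.2)
  set E := δ * Y ^ (5 * (S * t) ^ 2) with hE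
  have hE0 : 0 ≤ E := by rw [hE]; positivity
  have hPd : Differentiable ℂ (fun z => P.eval z) := P.differentiable
  have hG : Differentiable ℂ (fun z => F z - P.eval z) := hF.sub hPd
  have h1 := schwarz hG t S S' hS hS' (fun s hs r hr => by
    have e : (fun z => F z - P.eval z) = F - (fun z => P.eval z) := rfl
    rw [e, iteratedDeriv_sub (hF.contDiff.contDiffAt) (hPd.contDiff.contDiffAt),
      iteratedDeriv_eval, hP (⟨s, hs⟩, ⟨r, hr⟩)]
    simp) (M + E) (fun z hz => (norm_sub_le _ _).trans (add_le_add (hM z hz)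
      (hPb z (by linarith)))) s' hs'
  have h2 : ‖P.eval (s' : ℂ)‖ ≤ E := by
    apply hPb
    rw [Complex.norm_natCast]
    have : (s' : ℝ) ≤ S' := by exact_mod_cast hs'.le
    linarith
  have h3 : ‖F (s' : ℂ)‖ ≤ ‖F (s' : ℂ) - P.eval (s' : ℂ)‖ + ‖P.eval (s' : ℂ)‖ := by
    have := norm_add_le (F (s' : ℂ) - P.eval (s' : ℂ)) (P.eval (s' : ℂ))
    simpa using this
  have h4 : (M + E) / 2 ^ (t * S) ≤ M / 2 ^ (t * S) + E := by
    rw [add_div]
    have : E / 2 ^ (t * S) ≤ E := div_le_self hE0 (one_le_pow₀ (by norm_num))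
    linarith
  linarith

end Pool.Agent.BakerGap
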