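import Mathlib
import Pool.Agent.BakerGap.Hermite

set_option autoImplicit false

/-!
The family of exponential sums with integer weights attached to a linear form in logarithms.
-/

namespace Pool.Agent.BakerGap

open Complex Finset Polynomial Pool.Agent.BakerQi

variable {ι : Type} [Fintype ι] {q : ℕ} (w : ι → Fin q → ℤ) (η : Fin q → ℂ)

/-- The frequency of an index. -/
noncomputable def freq (k : ι) : ℂ := ∑ j, η j * (w k j : ℂ)

/-- The weight factor. -/
def wt (k : ι) (σ : Fin q → ℕ) : ℤ := ∏ j, w k j ^ σ j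

/-- The auxiliary functions. -/
noncomputable def phi (p : ι → ℤ) (σ : Fin q → ℕ) (z : ℂ) : ℂ :=
  ∑ k, (p k : ℂ) * (wt w k σ : ℂ) * exp (freq w η k * z)

theorem wt_add_single (k : ι) (σ : Fin q → ℕ) (j : Fin q) :
    wt w k (σ + Pi.single j 1) = wt w k σ * w k j := by
  unfold wt
  rw [← Finset.mul_prod_erase univ _ (mem_univ j), ← Finset.mul_prod_erase univ _ (mem_univ j)]
  have h1 : (σ + Pi.single j 1 : Fin q → ℕ) j = σ j + 1 := by simp
  have h2 : ∀ i ∈ univ.erase j, (σ + Pi.single j 1 : Fin q → ℕ) i = σ i := by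
    intro i hi
    have : i ≠ j := (mem_erase.1 hi).1
    simp [this]
  rw [h1, Finset.prod_congr rfl fun i hi => by rw [h2 i hi]]
  ring

theorem hasDerivAt_phi (p : ι → ℤ) (σ : Fin q → ℕ) (z : ℂ) :
    HasDerivAt (phi w η p σ) (∑ j, η j * phi w η p (σ + Pi.single j 1) z) z := by
  have h : HasDerivAt (fun z => ∑ k, (p k : ℂ) * (wt w k σ : ℂ) * exp (freq w η k * z))
      (∑ k, (p k : ℂ) * (wt w k σ : ℂ) * (exp (freq w η k * z) * (freq w η k * 1))) z :=
    HasDerivAt.fun_sum fun k _ => (((hasDerivAt_id z).const_mul (freq w η k)).cexp).const_mul _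
  have e : (∑ j, η j * phi w η p (σ + Pi.single j 1) z) =
      ∑ k, (p k : ℂ) * (wt w k σ : ℂ) * (exp (freq w η k * z) * (freq w η k * 1)) := by
    unfold phi
    simp only [Finset.mul_sum, wt_add_single]
    rw [Finset.sum_comm]
    refine Finset.sum_congr rfl fun k _ => ?_
    unfold freq
    rw [mul_one, Finset.mul_sum, Finset.mul_sum]
    refine Finset.sum_congr rfl fun j _ => ?_
    push_cast
    ring
  rw [e]
  exact h

theorem differentiable_phi (p : ι → ℤ) (σ : Fin q → ℕ) : Differentiable ℂ (phi w η p σ) :=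
  fun z => (hasDerivAt_phi w η p σ z).differentiableAt

theorem deriv_phi (p : ι → ℤ) (σ : Fin q → ℕ) :
    deriv (phi w η p σ) = fun z => ∑ j, η j * phi w η p (σ + Pi.single j 1) z :=
  funext fun z => (hasDerivAt_phi w η p σ z).deriv

/-- If all `phi p σ` with `σ` in the box `[0,T)` are small at `s`, so are the derivatives. -/
theorem norm_iteratedDeriv_phi_le (p : ι → ℤ) (T : ℕ) (s : ℂ) {δ c : ℝ} (hδ : 0 ≤ δ)
    (hη : ∑ j, ‖η j‖ ≤ c)
    (h : ∀ σ : Fin q → ℕ, (∀ i, σ i < T) → ‖phi w η p σ s‖ ≤ δ) (r : ℕ) :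
    ∀ σ : Fin q → ℕ, (∀ i, σ i + r < T) → ‖iteratedDeriv r (phi w η p σ) s‖ ≤ c ^ r * δ := by
  have hc : 0 ≤ c := le_trans (by positivity) hη
  induction r with
  | zero =>
    intro σ hσ
    rw [iteratedDeriv_zero, pow_zero, one_mul]
    exact h σ fun i => by simpa using hσ i
  | succ r ih =>
    intro σ hσ
    rw [iteratedDeriv_succ', deriv_phi]
    have hs : ∀ j ∈ (univ : Finset (Fin q)), ContDiffAt ℂ r
        (fun z => η j * phi w η p (σ + Pi.single j 1) z) s := by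
      intro j _
      exact (contDiffAt_const.mul ((differentiable_phi w η p _).contDiff.contDiffAt))
    rw [iteratedDeriv_fun_sum hs]
    refine (norm_sum_le _ _).trans ?_
    have h1 : ∀ j ∈ (univ : Finset (Fin q)),
        ‖iteratedDeriv r (fun z => η j * phi w η p (σ + Pi.single j 1) z) s‖ ≤
          ‖η j‖ * (c ^ r * δ) := by
      intro j _
      rw [iteratedDeriv_const_mul_field, norm_mul]
      refine mul_le_mul_of_nonneg_left (ih _ fun i => ?_) (norm_nonneg _)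
      have h1 := hσ i
      have h2 : (σ + Pi.single j 1 : Fin q → ℕ) i ≤ σ i + 1 := by
        rw [Pi.add_apply, Pi.single_apply]
        split_ifs <;> omega
      omega
    refine (Finset.sum_le_sum h1).trans ?_
    rw [← Finset.sum_mul, pow_succ]
    calc (∑ j, ‖η j‖) * (c ^ r * δ) ≤ c * (c ^ r * δ) := by gcongr
      _ = c ^ r * c * δ := by ring

/-- Bound of the weight factor. -/
theorem abs_wt_le {X : ℝ} (hX : 1 ≤ X) (hw : ∀ k j, |(w k j : ℝ)| ≤ X) (k : ι) (σ : Fin q → ℕ)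
    {T : ℕ} (hσ : ∀ j, σ j ≤ T) : |(wt w k σ : ℝ)| ≤ X ^ (q * T) := by
  unfold wt
  push_cast
  rw [Finset.abs_prod]
  calc (∏ j, |(w k j : ℝ) ^ σ j|) ≤ ∏ _j : Fin q, X ^ T := by
        refine Finset.prod_le_prod (fun _ _ => abs_nonneg _) fun j _ => ?_
        rw [abs_pow]
        exact (pow_le_pow_left₀ (abs_nonneg _) (hw k j) _).trans (pow_le_pow_right₀ hX (hσ j))
    _ = X ^ (q * T) := by
        rw [Finset.prod_const, Finset.card_univ, Fintype.card_fin, ← pow_mul, mul_comm]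

/-- Upper bound of the functions on a disc. -/
theorem norm_phi_le (p : ι → ℤ) {P : ℝ} (hp : ∀ k, |(p k : ℝ)| ≤ P) {X : ℝ} (hX : 1 ≤ X)
    (hw : ∀ k j, |(w k j : ℝ)| ≤ X) (σ : Fin q → ℕ) {T : ℕ} (hσ : ∀ j, σ j ≤ T) {Ω R : ℝ}
    (hΩ : ∀ k, ‖freq w η k‖ ≤ Ω) {z : ℂ} (hz : ‖z‖ ≤ R) :
    ‖phi w η p σ z‖ ≤ Fintype.card ι * (P * (X ^ (q * T) * Real.exp (Ω * R))) := by
  unfold phi
  refine (norm_sum_le _ _).trans ?_
  rw [← Finset.card_univ, ← nsmul_eq_mul]
  refine Finset.sum_le_card_nsmul _ _ _ fun k _ => ?_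
  rw [norm_mul, norm_mul, Complex.norm_intCast, Complex.norm_intCast]
  have h1 := hp k
  have h2 := abs_wt_le w hX hw k σ hσ
  have h3 : ‖exp (freq w η k * z)‖ ≤ Real.exp (Ω * R) := by
    rw [Complex.norm_exp]
    apply Real.exp_le_exp.2
    refine (Complex.re_le_norm _).trans ?_
    rw [norm_mul]
    have h4 := hΩ k
    have h5 : 0 ≤ Ω := (norm_nonneg _).trans h4
    gcongr
  have hP : 0 ≤ P := (abs_nonneg _).trans h1
  calc |(p k : ℝ)| * |(wt w k σ : ℝ)| * ‖exp (freq w η k * z)‖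
      ≤ P * X ^ (q * T) * Real.exp (Ω * R) := by gcongr
    _ = _ := by ring

/-- Comparison with the arithmetic values. -/
theorem norm_phi_sub_le (p : ι → ℤ) {P : ℝ} (hp : ∀ k, |(p k : ℝ)| ≤ P) {X : ℝ} (hX : 1 ≤ X)
    (hw : ∀ k j, |(w k j : ℝ)| ≤ X) (σ : Fin q → ℕ) {T : ℕ} (hσ : ∀ j, σ j ≤ T) (al : ι → ℂ)
    (s : ℕ) {ε : ℝ} (hε : ∀ k, ‖exp (freq w η k * s) - al k ^ s‖ ≤ ε) :
    ‖phi w η p σ s - ∑ k, (p k : ℂ) * (wt w k σ : ℂ) * al k ^ s‖ ≤
      Fintype.card ι * (P * (X ^ (q * T) * ε)) := by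
  unfold phi
  rw [← Finset.sum_sub_distrib]
  refine (norm_sum_le _ _).trans ?_
  rw [← Finset.card_univ, ← nsmul_eq_mul]
  refine Finset.sum_le_card_nsmul _ _ _ fun k _ => ?_
  rw [← mul_sub, norm_mul, norm_mul, Complex.norm_intCast, Complex.norm_intCast]
  have h1 := hp k
  have h2 := abs_wt_le w hX hw k σ hσ
  have h3 := hε k
  have hP : 0 ≤ P := (abs_nonneg _).trans h1
  calc |(p k : ℝ)| * |(wt w k σ : ℝ)| * ‖exp (freq w η k * s) - al k ^ s‖
      ≤ P * X ^ (q * T) * ε := by gcongr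
    _ = _ := by ring

end Pool.Agent.BakerGap
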