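import Mathlib
import Pool.Agent.BakerGap.Family
import Pool.Agent.BakerK.Arith

set_option autoImplicit false

/-!
Arithmetic values and Liouville's inequality.
-/

namespace Pool.Agent.BakerGap

open Complex Finset Polynomial Pool.Agent.BakerK

variable {ι : Type} [Fintype ι] {q : ℕ} (w : ι → Fin q → ℤ)
variable {K : Type} [Field K]

/-- The arithmetic values. -/
noncomputable def val (al : ι → K) (p : ι → ℤ) (σ : Fin q → ℕ) (s : ℕ) : K :=
  ∑ k, (p k : K) * (wt w k σ : K) * al k ^ s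

theorem map_val' {K' : Type} [Field K'] (f : K →+* K') (al : ι → K) (p : ι → ℤ) (σ : Fin q → ℕ)
    (s : ℕ) : f (val w al p σ s) = ∑ k, (p k : K') * (wt w k σ : K') * f (al k) ^ s := by
  unfold val
  rw [map_sum]
  refine Finset.sum_congr rfl fun k _ => ?_
  rw [map_mul, map_mul, map_intCast, map_intCast, map_pow]

theorem isIntegral_val [NumberField K] (al : ι → K) (A : ℕ)
    (hint : ∀ k, IsIntegral ℤ ((A : K) * al k)) (p : ι → ℤ) (σ : Fin q → ℕ) {s S : ℕ}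
    (hs : s ≤ S) : IsIntegral ℤ ((A : K) ^ S * val w al p σ s) := by
  rw [val, Finset.mul_sum]
  refine IsIntegral.sum _ fun k _ => ?_
  obtain ⟨d, rfl⟩ := Nat.exists_eq_add_of_le hs
  have e : (A : K) ^ (s + d) * ((p k : K) * (wt w k σ : K) * al k ^ s) =
      ((p k * wt w k σ : ℤ) : K) * ((A : K) ^ d) * ((A : K) * al k) ^ s := by
    rw [pow_add, mul_pow]; push_cast; ring
  rw [e]
  refine IsIntegral.mul (IsIntegral.mul ?_ ?_) ((hint k).pow s)
  · exact isIntegral_algebraMap (R := ℤ) (A := K) (x := (p k * wt w k σ : ℤ))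
  · have : IsIntegral ℤ ((A : ℤ) : K) := isIntegral_algebraMap (R := ℤ) (A := K) (x := (A : ℤ))
    have h2 := this.pow d
    simpa using h2

theorem norm_conj_val_le (al : ι → K) {H : ℝ} (hH : 1 ≤ H)
    (τ : K →+* ℂ) (hconj : ∀ k, ‖τ (al k)‖ ≤ H)
    (p : ι → ℤ) {P : ℝ} (hp : ∀ k, |(p k : ℝ)| ≤ P) {X : ℝ} (hX : 1 ≤ X)
    (hw : ∀ k j, |(w k j : ℝ)| ≤ X) (σ : Fin q → ℕ) {T : ℕ} (hσ : ∀ j, σ j ≤ T) {s S : ℕ}
    (hs : s ≤ S) :
    ‖τ (val w al p σ s)‖ ≤ Fintype.card ι * (P * (X ^ (q * T) * H ^ S)) := by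
  rw [map_val']
  refine (norm_sum_le _ _).trans ?_
  rw [← Finset.card_univ, ← nsmul_eq_mul]
  refine Finset.sum_le_card_nsmul _ _ _ fun k _ => ?_
  rw [norm_mul, norm_mul, Complex.norm_intCast, Complex.norm_intCast, norm_pow]
  have h1 := hp k
  have h2 := abs_wt_le w hX hw k σ hσ
  have h3 : ‖τ (al k)‖ ^ s ≤ H ^ S :=
    (pow_le_pow_left₀ (norm_nonneg _) (hconj k) _).trans (pow_le_pow_right₀ hH hs)
  have hP : 0 ≤ P := (abs_nonneg _).trans h1
  calc |(p k : ℝ)| * |(wt w k σ : ℝ)| * ‖τ (al k)‖ ^ s ≤ P * X ^ (q * T) * H ^ S := by gcongr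
    _ = _ := by ring

/-- Liouville's inequality for the arithmetic values. -/
theorem liouville_val [NumberField K] (φ : K →+* ℂ) (al : ι → K) (A : ℕ) (hA : 0 < A)
    (hint : ∀ k, IsIntegral ℤ ((A : K) * al k)) {H : ℝ} (hH : 1 ≤ H)
    (hconj : ∀ (τ : K →+* ℂ) k, ‖τ (al k)‖ ≤ H)
    (p : ι → ℤ) {P : ℝ} (hP : 1 ≤ P) (hp : ∀ k, |(p k : ℝ)| ≤ P) {X : ℝ} (hX : 1 ≤ X)
    (hw : ∀ k j, |(w k j : ℝ)| ≤ X) (σ : Fin q → ℕ) {T : ℕ} (hσ : ∀ j, σ j ≤ T) {s S : ℕ}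
    (hs : s ≤ S) (h0 : val w al p σ s ≠ 0) :
    1 ≤ ‖φ (val w al p σ s)‖ *
      (Fintype.card ι * (P * (X ^ (q * T) * (A * H) ^ S))) ^ Module.finrank ℚ K := by
  classical
  have hι : 0 < Fintype.card ι := by
    rw [Fintype.card_pos_iff]
    by_contra hne
    rw [not_nonempty_iff] at hne
    apply h0
    rw [val, Finset.univ_eq_empty, Finset.sum_empty]
  have hι1 : (1 : ℝ) ≤ Fintype.card ι := by exact_mod_cast hι
  have hA1 : (1 : ℝ) ≤ A := by exact_mod_cast hA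
  set W : ℝ := Fintype.card ι * (P * (X ^ (q * T) * (A * H) ^ S)) with hW
  set x : K := (A : K) ^ S * val w al p σ s with hx
  have hA0 : (A : K) ≠ 0 := by exact_mod_cast hA.ne'
  have hx0 : x ≠ 0 := mul_ne_zero (pow_ne_zero _ hA0) h0
  have hxi : IsIntegral ℤ x := isIntegral_val w al A hint p σ hs
  have hτ : ∀ τ : K →+* ℂ, ‖τ x‖ ≤ W := by
    intro τ
    rw [hx, map_mul, map_pow, map_natCast, norm_mul, norm_pow, Complex.norm_natCast]
    have h1 := norm_conj_val_le w al hH τ (hconj τ) p hp hX hw σ hσ hs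
    calc (A : ℝ) ^ S * ‖τ (val w al p σ s)‖ ≤
        (A : ℝ) ^ S * (Fintype.card ι * (P * (X ^ (q * T) * H ^ S))) := by gcongr
      _ = W := by rw [hW, mul_pow]; ring
  have h1 := liouville φ x hx0 hxi W hτ
  rw [hx, map_mul, map_pow, map_natCast, norm_mul, norm_pow, Complex.norm_natCast] at h1
  have hX0 : 1 ≤ X ^ (q * T) := one_le_pow₀ hX
  have hHS : 1 ≤ H ^ S := one_le_pow₀ hH
  have hAS : (0 : ℝ) < (A : ℝ) ^ S := by positivity
  have hAW : (A : ℝ) ^ S ≤ W := by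
    rw [hW, mul_pow]
    have h2 : (1 : ℝ) ≤ Fintype.card ι * (P * (X ^ (q * T) * H ^ S)) := by
      refine one_le_mul_of_one_le_of_one_le hι1 (one_le_mul_of_one_le_of_one_le hP
        (one_le_mul_of_one_le_of_one_le hX0 hHS))
    calc (A : ℝ) ^ S = (A : ℝ) ^ S * 1 := by ring
      _ ≤ (A : ℝ) ^ S * (Fintype.card ι * (P * (X ^ (q * T) * H ^ S))) := by gcongr
      _ = _ := by ring
  have hf : 0 < Module.finrank ℚ K := Module.finrank_pos
  obtain ⟨f, hf'⟩ : ∃ f, Module.finrank ℚ K = f + 1 := ⟨Module.finrank ℚ K - 1, by omega⟩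
  rw [hf'] at h1 ⊢
  rw [Nat.add_sub_cancel] at h1
  have hW0 : 0 ≤ W := hAS.le.trans hAW
  calc (1 : ℝ) ≤ (A : ℝ) ^ S * ‖φ (val w al p σ s)‖ * W ^ f := h1
    _ ≤ W * ‖φ (val w al p σ s)‖ * W ^ f := by gcongr
    _ = ‖φ (val w al p σ s)‖ * W ^ (f + 1) := by ring

end Pool.Agent.BakerGap
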