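import Mathlib

set_option autoImplicit false

/-!
Pigeonhole principle: small integer solutions of complex linear inequalities.
-/

namespace Pool.Agent.BakerGap

open Complex Finset

theorem box_lt {B : ℝ} (hB : 0 < B) {Q : ℕ} {x : ℝ} (hx : |x| ≤ B) :
    ⌊(x + B) * Q / (2 * B)⌋₊ < Q + 1 := by
  have h1 := (abs_le.1 hx)
  have h2 : (x + B) * Q / (2 * B) ≤ Q := by
    rw [div_le_iff₀ (by positivity)]
    nlinarith [h1.2, (Nat.cast_nonneg Q : (0 : ℝ) ≤ Q)]
  have h3 : ⌊(x + B) * Q / (2 * B)⌋₊ ≤ Q := by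
    have := Nat.floor_le_floor h2
    simpa using this
  omega

theorem box_close {B : ℝ} (hB : 0 < B) {Q : ℕ} (hQ : 0 < Q) {x y : ℝ} (hx : |x| ≤ B)
    (hy : |y| ≤ B) (h : ⌊(x + B) * Q / (2 * B)⌋₊ = ⌊(y + B) * Q / (2 * B)⌋₊) :
    |x - y| ≤ 2 * B / Q := by
  have hQ0 : (0 : ℝ) < Q := by exact_mod_cast hQ
  have hx1 := abs_le.1 hx
  have hy1 := abs_le.1 hy
  have hx0 : 0 ≤ (x + B) * Q / (2 * B) := by
    have : 0 ≤ x + B := by linarith
    positivity
  have hy0 : 0 ≤ (y + B) * Q / (2 * B) := by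
    have : 0 ≤ y + B := by linarith
    positivity
  have h1 := Nat.floor_le hx0
  have h2 := Nat.lt_floor_add_one ((x + B) * Q / (2 * B))
  have h3 := Nat.floor_le hy0
  have h4 := Nat.lt_floor_add_one ((y + B) * Q / (2 * B))
  rw [h] at h1 h2
  have h5 : |(x + B) * Q / (2 * B) - (y + B) * Q / (2 * B)| < 1 := by
    rw [abs_lt]; constructor <;> linarith
  have h6 : (x + B) * Q / (2 * B) - (y + B) * Q / (2 * B) = (x - y) * (Q / (2 * B)) := by
    field_simp; ring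
  rw [h6, abs_mul, abs_of_pos (by positivity : (0 : ℝ) < Q / (2 * B))] at h5
  rw [le_div_iff₀ hQ0]
  have h7 : |x - y| * (Q / (2 * B)) * (2 * B) < 1 * (2 * B) := by
    apply mul_lt_mul_of_pos_right h5; positivity
  have h8 : |x - y| * (Q / (2 * B)) * (2 * B) = |x - y| * Q := by field_simp
  linarith

/-- Pigeonhole principle. -/
theorem pigeon {E ι : Type} [Fintype E] [Fintype ι] (c : E → ι → ℂ) (P Q : ℕ) (hQ : 0 < Q)
    (Cb : ℝ) (hCb : 0 < Cb) (hc : ∀ e k, ‖c e k‖ ≤ Cb) (hι : 0 < Fintype.card ι) (hP : 0 < P)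
    (hcard : (Q + 1) ^ (2 * Fintype.card E) < (P + 1) ^ Fintype.card ι) :
    ∃ p : ι → ℤ, p ≠ 0 ∧ (∀ k, |(p k : ℝ)| ≤ P) ∧
      ∀ e, ‖∑ k, (p k : ℂ) * c e k‖ ≤ 4 * (Fintype.card ι * (P * Cb)) / Q := by
  classical
  set B : ℝ := Fintype.card ι * (P * Cb) with hB
  have hB0 : 0 < B := by
    have h1 : (0 : ℝ) < Fintype.card ι := by exact_mod_cast hι
    have h2 : (0 : ℝ) < P := by exact_mod_cast hP
    positivity
  let L : E → (ι → Fin (P + 1)) → ℂ := fun e p => ∑ k, (((p k : ℕ) : ℂ)) * c e k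
  have hL : ∀ e p, ‖L e p‖ ≤ B := by
    intro e p
    refine (norm_sum_le _ _).trans ?_
    have h1 : ∀ k ∈ (univ : Finset ι), ‖(((p k : ℕ) : ℂ)) * c e k‖ ≤ P * Cb := by
      intro k _
      rw [norm_mul, Complex.norm_natCast]
      have h2 : ((p k : ℕ) : ℝ) ≤ P := by exact_mod_cast Nat.lt_succ_iff.1 (p k).2
      have := hc e k
      gcongr
    refine (Finset.sum_le_card_nsmul _ _ _ h1).trans ?_
    rw [Finset.card_univ, nsmul_eq_mul]
  have hre : ∀ e p, |(L e p).re| ≤ B := fun e p => (Complex.abs_re_le_norm _).trans (hL e p)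
  have him : ∀ e p, |(L e p).im| ≤ B := fun e p => (Complex.abs_im_le_norm _).trans (hL e p)
  let f : (ι → Fin (P + 1)) → (E → Fin (Q + 1) × Fin (Q + 1)) := fun p e =>
    (⟨_, box_lt hB0 (hre e p)⟩, ⟨_, box_lt hB0 (him e p)⟩)
  have hcf : Fintype.card (E → Fin (Q + 1) × Fin (Q + 1)) < Fintype.card (ι → Fin (P + 1)) := by
    simp only [Fintype.card_fun, Fintype.card_prod, Fintype.card_fin]
    rw [← pow_two, ← pow_mul]
    exact hcard
  obtain ⟨x, y, hne, hxy⟩ := Fintype.exists_ne_map_eq_of_card_lt f hcf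
  refine ⟨fun k => ((x k : ℕ) : ℤ) - ((y k : ℕ) : ℤ), ?_, fun k => ?_, fun e => ?_⟩
  · intro h
    apply hne
    funext k
    have h1 := congrFun h k
    simp only [Pi.zero_apply] at h1
    apply Fin.ext
    omega
  · have h1 : ((x k : ℕ) : ℝ) ≤ P := by exact_mod_cast Nat.lt_succ_iff.1 (x k).2
    have h2 : ((y k : ℕ) : ℝ) ≤ P := by exact_mod_cast Nat.lt_succ_iff.1 (y k).2
    have h3 : (0 : ℝ) ≤ ((x k : ℕ) : ℝ) := by positivity
    have h4 : (0 : ℝ) ≤ ((y k : ℕ) : ℝ) := by positivity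
    push_cast
    rw [abs_le]
    constructor <;> linarith
  · have h1 : ∑ k, ((((x k : ℕ) : ℤ) - ((y k : ℕ) : ℤ) : ℤ) : ℂ) * c e k = L e x - L e y := by
      simp only [L]
      rw [← Finset.sum_sub_distrib]
      refine Finset.sum_congr rfl fun k _ => ?_
      push_cast
      ring
    rw [h1]
    have h2 := congrFun hxy e
    simp only [f, Prod.mk.injEq, Fin.mk.injEq] at h2
    have h3 := box_close hB0 hQ (hre e x) (hre e y) h2.1
    have h4 := box_close hB0 hQ (him e x) (him e y) h2.2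
    have h5 := Complex.norm_le_abs_re_add_abs_im (L e x - L e y)
    rw [Complex.sub_re, Complex.sub_im] at h5
    have h6 : 4 * B / Q = 2 * B / Q + 2 * B / Q := by ring
    linarith

end Pool.Agent.BakerGap
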