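import Mathlib
import Pool.Agent.BakerGap.Arith
import Pool.Agent.BakerGap.Pigeon

set_option autoImplicit false

/-!
Construction of the auxiliary function and one extrapolation step.
-/

namespace Pool.Agent.BakerGap

open Complex Finset Polynomial

/-- The data of Baker's method. -/
structure Setup (K : Type) [Field K] [NumberField K] where
  φ : K →+* ℂ
  ι : Type
  fι : Fintype ι
  q : ℕ
  w : ι → Fin q → ℤ
  η : Fin q → ℂ
  al : ι → K
  A : ℕ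
  hA : 0 < A
  hint : ∀ k, IsIntegral ℤ ((A : K) * al k)
  H : ℝ
  hH : 1 ≤ H
  hconj : ∀ (τ : K →+* ℂ) k, ‖τ (al k)‖ ≤ H
  X : ℝ
  hX : 1 ≤ X
  hw : ∀ k j, |(w k j : ℝ)| ≤ X
  hη : ∑ j, ‖η j‖ ≤ 10
  Ω : ℝ
  hΩ : ∀ k, ‖freq w η k‖ ≤ Ω
  hre : ∀ k, (freq w η k).re = 0
  eps : ℝ
  heps0 : 0 < eps
  heps : eps ≤ 1
  Smax : ℕ
  happ : ∀ k, ∀ s ≤ Smax, ‖exp (freq w η k * s) - φ (al k) ^ s‖ ≤ eps

attribute [instance] Setup.fι

namespace Setup

variable {K : Type} [Field K] [NumberField K] (B : Setup K)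

/-- The number of unknowns. -/
noncomputable def card : ℝ := (Fintype.card B.ι : ℝ)

/-- Upper bound for the size of the arithmetic values with denominators. -/
noncomputable def W (P : ℝ) (T S : ℕ) : ℝ :=
  B.card * (P * (B.X ^ (B.q * T) * (B.A * B.H) ^ S))

theorem step (p : B.ι → ℤ) {P : ℝ} (hP : 1 ≤ P) (hp : ∀ k, |(p k : ℝ)| ≤ P) (T t S S' : ℕ)
    (hS : S ≤ S') (hS' : 0 < S') (hSm : S' ≤ B.Smax)
    (h : ∀ σ : Fin B.q → ℕ, (∀ j, σ j < T + t) → ∀ s < S, val B.w B.al p σ s = 0)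
    (Y : ℝ) (hSt : (S * t : ℕ) ≤ Y) (hSY : 3 * (S' : ℝ) ≤ Y)
    (h1 : 4 * (B.card * (P * (B.X ^ (B.q * T) * Real.exp (B.Ω * (3 * S'))))) *
      B.W P T S' ^ Module.finrank ℚ K ≤ 2 ^ (t * S))
    (h2 : 12 * (10 ^ t * (B.card * (P * (B.X ^ (B.q * (T + t)) * B.eps)))) *
      Y ^ (5 * (S * t) ^ 2) * B.W P T S' ^ Module.finrank ℚ K ≤ 1) :
    ∀ σ : Fin B.q → ℕ, (∀ j, σ j < T) → ∀ s < S', val B.w B.al p σ s = 0 := by
  intro σ hσ s hs
  by_contra hne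
  have hι : 0 < Fintype.card B.ι := by
    rw [Fintype.card_pos_iff]
    by_contra hne'
    rw [not_nonempty_iff] at hne'
    apply hne
    rw [val, Finset.univ_eq_empty, Finset.sum_empty]
  have hc0 : (0 : ℝ) < B.card := by unfold card; exact_mod_cast hι
  have hX0 : 0 < B.X := by linarith [B.hX]
  have hP0 : 0 < P := by linarith
  set f := Module.finrank ℚ K with hf
  set e1 : ℝ := B.card * (P * (B.X ^ (B.q * (T + t)) * B.eps)) with he1
  have he10 : 0 < e1 := by have := B.heps0; positivity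
  set M : ℝ := B.card * (P * (B.X ^ (B.q * T) * Real.exp (B.Ω * (3 * S')))) with hM
  set W : ℝ := B.W P T S' with hW
  have hL := liouville_val B.w B.φ B.al B.A B.hA B.hint B.hH B.hconj p hP hp B.hX B.hw σ
    (fun j => (hσ j).le) hs.le hne
  change 1 ≤ ‖B.φ (val B.w B.al p σ s)‖ * W ^ f at hL
  -- comparison
  have hcmp : ∀ (σ' : Fin B.q → ℕ), (∀ j, σ' j ≤ T + t) → ∀ s' ≤ B.Smax,
      ‖phi B.w B.η p σ' s' - B.φ (val B.w B.al p σ' s')‖ ≤ e1 := by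
    intro σ' hσ' s' hs'
    rw [map_val']
    exact norm_phi_sub_le B.w B.η p hp B.hX B.hw σ' hσ' (fun k => B.φ (B.al k)) s'
      (fun k => B.happ k s' hs')
  have hnode : ∀ (σ' : Fin B.q → ℕ), (∀ j, σ' j < T + t) → ∀ s' < S,
      ‖phi B.w B.η p σ' s'‖ ≤ e1 := by
    intro σ' hσ' s' hs'
    have := hcmp σ' (fun j => (hσ' j).le) s' (by omega)
    rwa [h σ' hσ' s' hs', map_zero, sub_zero] at this
  set δ : ℝ := 10 ^ t * e1 with hδ
  have hδ0 : 0 < δ := by positivity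
  have hder : ∀ s' < S, ∀ r < t, ‖iteratedDeriv r (phi B.w B.η p σ) (s' : ℂ)‖ ≤ δ := by
    intro s' hs' r hr
    have h3 := norm_iteratedDeriv_phi_le B.w B.η p (T + t) (s' : ℂ) he10.le B.hη
      (fun σ' hσ' => hnode σ' hσ' s' hs') r σ (fun i => by have := hσ i; omega)
    refine h3.trans ?_
    rw [hδ]
    gcongr
    · norm_num
  have hbd : ∀ z : ℂ, ‖z‖ ≤ 3 * S' → ‖phi B.w B.η p σ z‖ ≤ M := fun z hz =>
    norm_phi_le B.w B.η p hp B.hX B.hw σ (fun j => (hσ j).le) B.hΩ hz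
  have h4 := approx_schwarz (differentiable_phi B.w B.η p σ) t S S' hS hS' Y δ hδ0 hSt hSY hder M
    hbd s hs
  have h5 := hcmp σ (fun j => by have := hσ j; omega) s (by omega)
  have h6 : ‖B.φ (val B.w B.al p σ s)‖ ≤ ‖phi B.w B.η p σ s‖ + e1 := by
    have h7 := norm_sub_norm_le (B.φ (val B.w B.al p σ s)) (phi B.w B.η p σ s)
    rw [norm_sub_rev] at h7
    linarith
  have hS1 : (1 : ℝ) ≤ S' := by exact_mod_cast hS'
  have hY1 : 1 ≤ Y := by linarith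
  have hYp : 1 ≤ Y ^ (5 * (S * t) ^ 2) := one_le_pow₀ hY1
  have h10 : (1 : ℝ) ≤ 10 ^ t := one_le_pow₀ (by norm_num)
  have h8 : e1 ≤ δ * Y ^ (5 * (S * t) ^ 2) := by
    rw [hδ]
    calc e1 = 1 * e1 * 1 := by ring
      _ ≤ 10 ^ t * e1 * Y ^ (5 * (S * t) ^ 2) := by gcongr
  have h9 : ‖B.φ (val B.w B.al p σ s)‖ ≤ M / 2 ^ (t * S) + 3 * (δ * Y ^ (5 * (S * t) ^ 2)) := by
    linarith
  have hW0 : 0 < W := by
    rw [hW]; unfold Setup.W
    have h11 : (1 : ℝ) ≤ B.A := by exact_mod_cast B.hA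
    have := B.hH
    positivity
  have hWf : 0 < W ^ f := by positivity
  have h12 : M / 2 ^ (t * S) * W ^ f ≤ 1 / 4 := by
    rw [div_mul_eq_mul_div, div_le_iff₀ (by positivity)]
    linarith
  have h13 : 3 * (δ * Y ^ (5 * (S * t) ^ 2)) * W ^ f ≤ 1 / 4 := by
    rw [hδ]
    linarith
  have h14 : ‖B.φ (val B.w B.al p σ s)‖ * W ^ f ≤
      (M / 2 ^ (t * S) + 3 * (δ * Y ^ (5 * (S * t) ^ 2))) * W ^ f := by gcongr
  rw [add_mul] at h14
  linarith

/-- Construction of the auxiliary function. -/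
theorem exists_aux (T S : ℕ) (hSm : S ≤ B.Smax) (P Q : ℕ) (hQ : 0 < Q) (hP : 0 < P)
    (hι : 0 < Fintype.card B.ι)
    (hcard : (Q + 1) ^ (2 * (T ^ B.q * S)) < (P + 1) ^ Fintype.card B.ι)
    (hsmall : 8 * (B.card * (P * B.X ^ (B.q * T))) * B.W P T S ^ Module.finrank ℚ K < Q) :
    ∃ p : B.ι → ℤ, p ≠ 0 ∧ (∀ k, |(p k : ℝ)| ≤ P) ∧
      ∀ σ : Fin B.q → ℕ, (∀ j, σ j < T) → ∀ s < S, val B.w B.al p σ s = 0 := by
  classical
  have hX0 : 0 < B.X := by linarith [B.hX]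
  have hal : ∀ k, ∀ s ≤ B.Smax, ‖B.φ (B.al k) ^ s‖ ≤ 2 := by
    intro k s hs
    have h1 := B.happ k s hs
    have h2 : ‖exp (freq B.w B.η k * s)‖ = 1 := by
      rw [Complex.norm_exp]
      have h3 := B.hre k
      have : (freq B.w B.η k * (s : ℂ)).re = 0 := by
        rw [Complex.mul_re, h3, Complex.natCast_im]; ring
      rw [this, Real.exp_zero]
    have h3 := norm_sub_norm_le (B.φ (B.al k) ^ s) (exp (freq B.w B.η k * s))
    rw [norm_sub_rev] at h3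
    have := B.heps
    linarith
  let c : ((Fin B.q → Fin T) × Fin S) → B.ι → ℂ := fun e k =>
    (wt B.w k (fun j => (e.1 j : ℕ)) : ℂ) * B.φ (B.al k) ^ (e.2 : ℕ)
  have hc : ∀ e k, ‖c e k‖ ≤ B.X ^ (B.q * T) * 2 := by
    intro e k
    simp only [c]
    rw [norm_mul, Complex.norm_intCast]
    have h1 := abs_wt_le B.w B.hX B.hw k (fun j => (e.1 j : ℕ)) (T := T) (fun j => (e.1 j).2.le)
    have h2 := hal k (e.2 : ℕ) (by have := e.2.2; omega)
    gcongr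
  have hce : Fintype.card ((Fin B.q → Fin T) × Fin S) = T ^ B.q * S := by simp
  obtain ⟨p, hp0, hpb, hps⟩ := pigeon c P Q hQ (B.X ^ (B.q * T) * 2) (by positivity) hc hι hP
    (by rw [hce]; exact hcard)
  refine ⟨p, hp0, hpb, fun σ hσ s hs => ?_⟩
  by_contra hne
  have hP1 : (1 : ℝ) ≤ P := by exact_mod_cast hP
  have hL := liouville_val B.w B.φ B.al B.A B.hA B.hint B.hH B.hconj p hP1 hpb B.hX B.hw σ
    (fun j => (hσ j).le) hs.le hne
  change 1 ≤ ‖B.φ (val B.w B.al p σ s)‖ * B.W P T S ^ Module.finrank ℚ K at hL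
  have h1 := hps (fun j => ⟨σ j, hσ j⟩, ⟨s, hs⟩)
  have h2 : ∑ k, (p k : ℂ) * c (fun j => ⟨σ j, hσ j⟩, ⟨s, hs⟩) k = B.φ (val B.w B.al p σ s) := by
    rw [map_val']
    refine Finset.sum_congr rfl fun k _ => ?_
    simp only [c]
    ring
  rw [h2] at h1
  have hQ0 : (0 : ℝ) < Q := by exact_mod_cast hQ
  have hW0 : 0 ≤ B.W P T S := by
    unfold Setup.W card
    have := B.hH
    positivity
  rw [le_div_iff₀ hQ0] at h1
  have h3 : (Q : ℝ) ≤ ‖B.φ (val B.w B.al p σ s)‖ * B.W P T S ^ Module.finrank ℚ K * Q := by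
    calc (Q : ℝ) = 1 * Q := by ring
      _ ≤ _ := by gcongr
  have h4 : ‖B.φ (val B.w B.al p σ s)‖ * B.W P T S ^ Module.finrank ℚ K * Q ≤
      4 * ((Fintype.card B.ι : ℝ) * (P * (B.X ^ (B.q * T) * 2))) *
        B.W P T S ^ Module.finrank ℚ K := by
    calc _ = (‖B.φ (val B.w B.al p σ s)‖ * Q) * B.W P T S ^ Module.finrank ℚ K := by ring
      _ ≤ _ := by gcongr
  have h5 : 4 * ((Fintype.card B.ι : ℝ) * (P * (B.X ^ (B.q * T) * 2))) *
        B.W P T S ^ Module.finrank ℚ K =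
      8 * (B.card * (P * B.X ^ (B.q * T))) * B.W P T S ^ Module.finrank ℚ K := by
    unfold card; ring
  rw [h5] at h4
  linarith

end Setup

end Pool.Agent.BakerGap
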