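import Mathlib
import Pool.Agent.BakerGap.Step

set_option autoImplicit false

/-!
Choice of parameters.
-/

namespace Pool.Agent.BakerGap

open Complex Finset Polynomial

theorem mul_le_two_pow {a b : ℝ} {m n : ℕ} (ha : a ≤ 2 ^ m) (hb0 : 0 ≤ b)
    (hb : b ≤ 2 ^ n) : a * b ≤ 2 ^ (m + n) := by
  rw [pow_add]
  exact mul_le_mul ha hb hb0 (by positivity)

theorem pow_le_two_pow {a : ℝ} {m : ℕ} (ha0 : 0 ≤ a) (ha : a ≤ 2 ^ m) (n : ℕ) :
    a ^ n ≤ 2 ^ (m * n) := by
  rw [pow_mul]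
  exact pow_le_pow_left₀ ha0 ha n

theorem exp_nat_le (n : ℕ) : Real.exp n ≤ 2 ^ (2 * n) := by
  have h1 : Real.exp 1 ≤ 2 ^ 2 := by
    have := Real.exp_one_lt_d9
    norm_num
    linarith
  calc Real.exp n = Real.exp 1 ^ n := by rw [← Real.exp_nat_mul, mul_one]
    _ ≤ (2 ^ 2) ^ n := by gcongr
    _ = 2 ^ (2 * n) := by rw [pow_mul]

namespace Setup

variable {K : Type} [Field K] [NumberField K] (B : Setup K)

theorem core (N lam : ℕ) (hlam : 1 ≤ lam)
    (hN : 5000 * Module.finrank ℚ K * lam ≤ N) (hq : B.q ≤ 2) (hX : B.X ≤ 2 ^ lam)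
    (hAH : B.A * B.H ≤ 2 ^ (2 * lam * N ^ 6)) (hΩ : B.Ω ≤ 13 * (N : ℝ) ^ 6)
    (hSm : N ^ 12 ≤ B.Smax) (heps : B.eps * 2 ^ (N ^ 42) ≤ 1)
    (hc1 : 8 * Module.finrank ℚ K * ((12 * N ^ 8) ^ B.q * N) ≤ Fintype.card B.ι)
    (hc2 : Fintype.card B.ι ≤ N ^ 18) :
    ∃ p : B.ι → ℤ, p ≠ 0 ∧ ∀ σ : Fin B.q → ℕ, (∀ j, σ j < N ^ 8) → ∀ s < N ^ 12,
      val B.w B.al p σ s = 0 := by
  set f := Module.finrank ℚ K with hf
  have hf0 : 1 ≤ f := Module.finrank_pos
  have hfl : 1 ≤ f * lam := Nat.mul_pos hf0 hlam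
  have hN' : 5000 ≤ N := by
    calc 5000 = 5000 * 1 := by ring
      _ ≤ 5000 * (f * lam) := by gcongr
      _ = 5000 * f * lam := by ring
      _ ≤ N := hN
  have hN0 : 0 < N := by omega
  have hN1 : (1 : ℝ) ≤ N := by exact_mod_cast hN0
  have hX0 : 0 < B.X := by linarith [B.hX]
  have hA1 : (1 : ℝ) ≤ B.A := by exact_mod_cast B.hA
  have hH1 := B.hH
  have hAH0 : 0 ≤ B.A * B.H := by positivity
  have hN2 : (N : ℝ) ≤ 2 ^ N := by exact_mod_cast Nat.lt_two_pow_self.le
  have hN7 : 18 * N ≤ N ^ 8 := by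
    calc 18 * N ≤ N * N := by gcongr; omega
      _ = N ^ 2 := by ring
      _ ≤ N ^ 8 := Nat.pow_le_pow_right hN0 (by norm_num)
  have hcard0 : 0 ≤ B.card := by unfold card; positivity
  have hcard : B.card ≤ 2 ^ (lam * N ^ 8) := by
    unfold card
    calc (Fintype.card B.ι : ℝ) ≤ ((N ^ 18 : ℕ) : ℝ) := by exact_mod_cast hc2
      _ = (N : ℝ) ^ 18 := by push_cast; ring
      _ ≤ 2 ^ (N * 18) := pow_le_two_pow (by positivity) hN2 18
      _ ≤ 2 ^ (lam * N ^ 8) := by
          refine pow_le_pow_right₀ (by norm_num) ?_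
          calc N * 18 = 18 * N := by ring
            _ ≤ N ^ 8 := hN7
            _ = 1 * N ^ 8 := by ring
            _ ≤ lam * N ^ 8 := by gcongr
  set eP := 50 * (lam * N ^ 8) with heP
  set P : ℕ := 2 ^ eP with hP
  have hPr : ((P : ℕ) : ℝ) = 2 ^ eP := by rw [hP]; push_cast; rfl
  have hP0 : 0 < P := by positivity
  have hP1 : (1 : ℝ) ≤ P := by exact_mod_cast hP0
  have hXT : ∀ T, T ≤ 12 * N ^ 8 → B.X ^ (B.q * T) ≤ 2 ^ (24 * (lam * N ^ 8)) := by
    intro T hT
    refine (pow_le_two_pow hX0.le hX _).trans (pow_le_pow_right₀ (by norm_num) ?_)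
    calc lam * (B.q * T) ≤ lam * (2 * (12 * N ^ 8)) := by gcongr
      _ = 24 * (lam * N ^ 8) := by ring
  have hXp : ∀ T, 0 ≤ B.X ^ (B.q * T) := fun T => by positivity
  have hcPX : ∀ T, T ≤ 12 * N ^ 8 → B.card * (P * B.X ^ (B.q * T)) ≤ 2 ^ (75 * (lam * N ^ 8)) := by
    intro T hT
    have h1 : (P : ℝ) * B.X ^ (B.q * T) ≤ 2 ^ (eP + 24 * (lam * N ^ 8)) :=
      mul_le_two_pow hPr.le (hXp T) (hXT T hT)
    have h2 := mul_le_two_pow hcard (by positivity) h1
    refine h2.trans (pow_le_pow_right₀ (by norm_num) ?_)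
    rw [heP]; omega
  have hcPX0 : ∀ T, 0 ≤ B.card * (P * B.X ^ (B.q * T)) := fun T => by positivity
  have hW0 : ∀ T S, 0 ≤ B.W P T S := fun T S => by
    unfold Setup.W; positivity
  have hW : ∀ T, T ≤ 12 * N ^ 8 → ∀ i, B.W P T (N ^ (i + 2)) ≤ 2 ^ (77 * (lam * N ^ (8 + i))) := by
    intro T hT i
    have e : B.W P T (N ^ (i + 2)) = B.card * (P * B.X ^ (B.q * T)) * (B.A * B.H) ^ (N ^ (i + 2)) := by
      unfold Setup.W; ring
    rw [e]
    have h1 := pow_le_two_pow hAH0 hAH (N ^ (i + 2))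
    have h2 := mul_le_two_pow (hcPX T hT) (by positivity) h1
    refine h2.trans (pow_le_pow_right₀ (by norm_num) ?_)
    have h3 : N ^ 8 ≤ N ^ (8 + i) := Nat.pow_le_pow_right hN0 (by omega)
    have h4 : 2 * lam * N ^ 6 * N ^ (i + 2) = 2 * (lam * N ^ (8 + i)) := by ring
    rw [h4]
    have h5 : lam * N ^ 8 ≤ lam * N ^ (8 + i) := Nat.mul_le_mul_left _ h3
    omega
  -- the auxiliary function
  obtain ⟨p, hp0, hpb, hpz⟩ := B.exists_aux (12 * N ^ 8) N
    (le_trans (by calc N = N ^ 1 := by ring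
      _ ≤ N ^ 12 := Nat.pow_le_pow_right hN0 (by norm_num)) hSm)
    P (2 ^ (160 * (f * (lam * N ^ 8)))) (by positivity) hP0
    (lt_of_lt_of_le (by positivity) hc1) (by
      have h1 : 2 ^ (160 * (f * (lam * N ^ 8))) + 1 ≤ 2 ^ (161 * (f * (lam * N ^ 8))) := by
        have h2 : 160 * (f * (lam * N ^ 8)) + 1 ≤ 161 * (f * (lam * N ^ 8)) := by
          have : 0 < f * (lam * N ^ 8) := by positivity
          omega
        calc 2 ^ (160 * (f * (lam * N ^ 8))) + 1 ≤
            2 ^ (160 * (f * (lam * N ^ 8))) + 2 ^ (160 * (f * (lam * N ^ 8))) := by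
              have : 1 ≤ 2 ^ (160 * (f * (lam * N ^ 8))) := Nat.one_le_two_pow
              omega
          _ = 2 ^ (160 * (f * (lam * N ^ 8)) + 1) := by rw [pow_succ]; ring
          _ ≤ _ := Nat.pow_le_pow_right (by norm_num) h2
      set E := (12 * N ^ 8) ^ B.q * N with hE
      have hE0 : 0 < E := by positivity
      calc (2 ^ (160 * (f * (lam * N ^ 8))) + 1) ^ (2 * E)
          ≤ (2 ^ (161 * (f * (lam * N ^ 8)))) ^ (2 * E) := Nat.pow_le_pow_left h1 _
        _ = 2 ^ (322 * (f * (lam * N ^ 8)) * E) := by rw [← pow_mul]; congr 1; ring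
        _ ≤ 2 ^ (eP * (8 * f * E)) := by
            refine Nat.pow_le_pow_right (by norm_num) ?_
            calc 322 * (f * (lam * N ^ 8)) * E ≤ 400 * (f * (lam * N ^ 8)) * E := by gcongr; omega
              _ = eP * (8 * f * E) := by rw [heP]; ring
        _ ≤ 2 ^ (eP * Fintype.card B.ι) := Nat.pow_le_pow_right (by norm_num) (by gcongr)
        _ = P ^ Fintype.card B.ι := by rw [hP, ← pow_mul]
        _ < (P + 1) ^ Fintype.card B.ι := by
            refine Nat.pow_lt_pow_left (Nat.lt_succ_self _) ?_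
            have : 0 < Fintype.card B.ι := lt_of_lt_of_le (by positivity) hc1
            omega)
    (by
      have h1 : B.W P (12 * N ^ 8) N ≤ 2 ^ (77 * (lam * N ^ 8)) := by
        have e : B.W P (12 * N ^ 8) N = B.card * (P * B.X ^ (B.q * (12 * N ^ 8))) * (B.A * B.H) ^ N := by
          unfold Setup.W; ring
        rw [e]
        have h1 := pow_le_two_pow hAH0 hAH N
        have h2 := mul_le_two_pow (hcPX _ le_rfl) (by positivity) h1
        refine h2.trans (pow_le_pow_right₀ (by norm_num) ?_)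
        have h4 : 2 * lam * N ^ 6 * N ≤ 2 * (lam * N ^ 8) := by
          calc 2 * lam * N ^ 6 * N = 2 * (lam * N ^ 7) := by ring
            _ ≤ 2 * (lam * N ^ 8) := by
                have : N ^ 7 ≤ N ^ 8 := Nat.pow_le_pow_right hN0 (by norm_num)
                gcongr
        omega
      have h2 := pow_le_two_pow (hW0 _ _) h1 f
      have h3 : (8 : ℝ) * (B.card * (P * B.X ^ (B.q * (12 * N ^ 8)))) ≤ 2 ^ (3 + 75 * (lam * N ^ 8)) :=
        mul_le_two_pow (by norm_num) (hcPX0 _) (hcPX _ le_rfl)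
      have h4 := mul_le_two_pow h3 (pow_nonneg (hW0 _ _) _) h2
      refine lt_of_le_of_lt h4 ?_
      push_cast
      refine pow_lt_pow_right₀ (by norm_num) ?_
      have h5 : lam * N ^ 8 ≤ f * (lam * N ^ 8) := Nat.le_mul_of_pos_left _ hf0
      have h6 : 77 * (lam * N ^ 8) * f = 77 * (f * (lam * N ^ 8)) := by ring
      have h7 : 0 < lam * N ^ 8 := Nat.mul_pos hlam (pow_pos hN0 _)
      have h8 : 3 < N ^ 8 := by
        calc 3 < N := by omega
          _ = N ^ 1 := by ring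
          _ ≤ N ^ 8 := Nat.pow_le_pow_right hN0 (by norm_num)
      have h9 : N ^ 8 ≤ lam * N ^ 8 := Nat.le_mul_of_pos_left _ hlam
      rw [h6]
      omega)
  refine ⟨p, hp0, ?_⟩
  -- the extrapolation
  have main : ∀ i : ℕ, i ≤ 11 → ∀ σ : Fin B.q → ℕ, (∀ j, σ j < (12 - i) * N ^ 8) →
      ∀ s < N ^ (i + 1), val B.w B.al p σ s = 0 := by
    intro i
    induction i with
    | zero =>
      intro _ σ hσ s hs
      exact hpz σ (by simpa using hσ) s (by simpa using hs)
    | succ i ih =>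
      intro hi
      have ih' := ih (by omega)
      have hTW : (12 - i) * N ^ 8 = (12 - (i + 1)) * N ^ 8 + N ^ 8 := by
        obtain ⟨t, ht⟩ : ∃ t, 12 - i = t + 1 := ⟨11 - i, by omega⟩
        have : 12 - (i + 1) = t := by omega
        rw [ht, this]; ring
      rw [hTW] at ih'
      set T := (12 - (i + 1)) * N ^ 8 with hT
      have hT12 : T ≤ 12 * N ^ 8 := Nat.mul_le_mul_right _ (by omega)
      have hTt12 : T + N ^ 8 ≤ 12 * N ^ 8 := by
        rw [← hTW]; exact Nat.mul_le_mul_right _ (by omega)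
      have hWi := hW T hT12 i
      have hWf := pow_le_two_pow (hW0 T (N ^ (i + 2))) hWi f
      have hlamN : 77 * (lam * N ^ (8 + i)) * f = 77 * (f * lam * N ^ (8 + i)) := by ring
      have h5000 : 5000 * (f * lam * N ^ (8 + i)) ≤ N ^ (9 + i) := by
        calc 5000 * (f * lam * N ^ (8 + i)) = 5000 * f * lam * N ^ (8 + i) := by ring
          _ ≤ N * N ^ (8 + i) := by gcongr
          _ = N ^ (9 + i) := by rw [← pow_succ']; congr 1; omega
      have hle8 : lam * N ^ 8 ≤ f * lam * N ^ (8 + i) := by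
        calc lam * N ^ 8 = 1 * lam * N ^ 8 := by ring
          _ ≤ f * lam * N ^ (8 + i) := by
            have : N ^ 8 ≤ N ^ (8 + i) := Nat.pow_le_pow_right hN0 (by omega)
            gcongr
      have hle9 : N ^ (8 + i) ≤ f * lam * N ^ (8 + i) := Nat.le_mul_of_pos_left _ hfl
      have hpos9 : 0 < N ^ (8 + i) := by positivity
      refine B.step p hP1 hpb T (N ^ 8) (N ^ (i + 1)) (N ^ (i + 1 + 1))
        (Nat.pow_le_pow_right hN0 (by omega)) (by positivity)
        (le_trans (Nat.pow_le_pow_right hN0 (by omega)) hSm) ih' ((N : ℝ) ^ 20) ?_ ?_ ?_ ?_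
      · push_cast
        rw [← pow_add]
        exact pow_le_pow_right₀ hN1 (by omega)
      · push_cast
        calc 3 * (N : ℝ) ^ (i + 1 + 1) ≤ N * (N : ℝ) ^ (i + 1 + 1) := by
              have : (3 : ℝ) ≤ N := by exact_mod_cast (by omega : 3 ≤ N)
              gcongr
          _ = (N : ℝ) ^ (i + 3) := by ring
          _ ≤ (N : ℝ) ^ 20 := pow_le_pow_right₀ hN1 (by omega)
      · -- the main inequality
        have hexp : Real.exp (B.Ω * (3 * ((N ^ (i + 1 + 1) : ℕ) : ℝ))) ≤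
            2 ^ (78 * N ^ (8 + i)) := by
          have h1 : B.Ω * (3 * ((N ^ (i + 1 + 1) : ℕ) : ℝ)) ≤ ((39 * N ^ (8 + i) : ℕ) : ℝ) := by
            push_cast
            calc B.Ω * (3 * (N : ℝ) ^ (i + 1 + 1)) ≤ (13 * (N : ℝ) ^ 6) * (3 * (N : ℝ) ^ (i + 1 + 1)) := by
                  gcongr
              _ = 39 * (N : ℝ) ^ (8 + i) := by ring
          refine (Real.exp_le_exp.2 h1).trans ((exp_nat_le _).trans ?_)
          refine pow_le_pow_right₀ (by norm_num) ?_
          omega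
        have e1 : 4 * (B.card * (P * (B.X ^ (B.q * T) *
            Real.exp (B.Ω * (3 * ((N ^ (i + 1 + 1) : ℕ) : ℝ)))))) * B.W P T (N ^ (i + 1 + 1)) ^ f =
            4 * (B.card * (P * B.X ^ (B.q * T))) *
            Real.exp (B.Ω * (3 * ((N ^ (i + 1 + 1) : ℕ) : ℝ))) * B.W P T (N ^ (i + 2)) ^ f := by ring
        rw [e1]
        have h2 : (4 : ℝ) * (B.card * (P * B.X ^ (B.q * T))) ≤ 2 ^ (2 + 75 * (lam * N ^ 8)) :=
          mul_le_two_pow (by norm_num) (hcPX0 _) (hcPX _ hT12)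
        have h3 := mul_le_two_pow h2 (Real.exp_pos _).le hexp
        have h4 := mul_le_two_pow h3 (pow_nonneg (hW0 _ _) _) hWf
        refine h4.trans (pow_le_pow_right₀ (by norm_num) ?_)
        have h6 : N ^ 8 * N ^ (i + 1) = N ^ (9 + i) := by rw [← pow_add]; congr 1; omega
        rw [h6, hlamN]
        omega
      · -- the smallness of `eps`
        have hY : ((N : ℝ) ^ 20) ^ (5 * (N ^ (i + 1) * N ^ 8) ^ 2) ≤ 2 ^ (100 * N ^ 39) := by
          have h1 : (N : ℝ) ^ 20 ≤ 2 ^ (N * 20) := pow_le_two_pow (by positivity) hN2 20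
          refine (pow_le_two_pow (by positivity) h1 _).trans
            (pow_le_pow_right₀ (by norm_num) ?_)
          have h2 : (N ^ (i + 1) * N ^ 8) ^ 2 ≤ N ^ 38 := by
            rw [← pow_add, ← pow_mul]
            exact Nat.pow_le_pow_right hN0 (by omega)
          calc N * 20 * (5 * (N ^ (i + 1) * N ^ 8) ^ 2) ≤ N * 20 * (5 * N ^ 38) := by gcongr
            _ = 100 * N ^ 39 := by ring
        have e1 : 12 * (10 ^ N ^ 8 * (B.card * (P * (B.X ^ (B.q * (T + N ^ 8)) * B.eps)))) *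
            ((N : ℝ) ^ 20) ^ (5 * (N ^ (i + 1) * N ^ 8) ^ 2) * B.W P T (N ^ (i + 1 + 1)) ^ f =
            (12 * 10 ^ N ^ 8 * (B.card * (P * B.X ^ (B.q * (T + N ^ 8)))) *
            ((N : ℝ) ^ 20) ^ (5 * (N ^ (i + 1) * N ^ 8) ^ 2) * B.W P T (N ^ (i + 2)) ^ f) *
              B.eps := by ring
        rw [e1]
        have h10 : (10 : ℝ) ^ N ^ 8 ≤ 2 ^ (4 * N ^ 8) := pow_le_two_pow (by norm_num) (by norm_num) _
        have h12 : (12 : ℝ) * 10 ^ N ^ 8 ≤ 2 ^ (4 + 4 * N ^ 8) :=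
          mul_le_two_pow (by norm_num) (by positivity) h10
        have h13 := mul_le_two_pow h12 (hcPX0 (T + N ^ 8)) (hcPX _ hTt12)
        have h14 := mul_le_two_pow h13 (by positivity) hY
        have h15 := mul_le_two_pow h14 (pow_nonneg (hW0 _ _) _) hWf
        have h16 : (2 : ℝ) ^ (4 + 4 * N ^ 8 + 75 * (lam * N ^ 8) + 100 * N ^ 39 +
            77 * (lam * N ^ (8 + i)) * f) ≤ 2 ^ (N ^ 42) := by
          refine pow_le_pow_right₀ (by norm_num) ?_
          have g1 : N ^ (9 + i) ≤ N ^ 39 := Nat.pow_le_pow_right hN0 (by omega)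
          have g2 : N ^ 8 ≤ N ^ 39 := Nat.pow_le_pow_right hN0 (by omega)
          have g3 : 5000 * N ^ 39 ≤ N ^ 42 := by
            calc 5000 * N ^ 39 ≤ N * N ^ 39 := by gcongr
              _ = N ^ 40 := by ring
              _ ≤ N ^ 42 := Nat.pow_le_pow_right hN0 (by omega)
          have g4 : 0 < N ^ 39 := by positivity
          rw [hlamN]
          omega
        have h17 := B.heps0
        calc _ ≤ 2 ^ (N ^ 42) * B.eps := mul_le_mul_of_nonneg_right (h15.trans h16) h17.le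
          _ ≤ 1 := by linarith
  intro σ hσ s hs
  refine main 11 le_rfl σ (fun j => ?_) s (by simpa using hs)
  have := hσ j
  omega

end Setup

end Pool.Agent.BakerGap
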