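import Mathlib
import Pool.Agent.BakerGap.Arith

set_option autoImplicit false

/-!
The zero estimate: the arithmetic values cannot all vanish.
-/

namespace Pool.Agent.BakerGap

open Finset

/-- Vandermonde for a finite set of distinct nodes. -/
theorem vandermonde_finset {K ι : Type} [Field K] (s : Finset ι) (v : ι → K)
    (hv : ∀ k ∈ s, ∀ k' ∈ s, v k = v k' → k = k') (c : ι → K) (T : ℕ) (hT : s.card ≤ T)
    (h : ∀ i < T, ∑ k ∈ s, c k * v k ^ i = 0) : ∀ k ∈ s, c k = 0 := by
  classical
  let e := s.equivFin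
  have h1 : (fun i : Fin s.card => c (e.symm i)) = 0 := by
    refine Matrix.eq_zero_of_forall_pow_sum_mul_pow_eq_zero
      (f := fun i : Fin s.card => v (e.symm i)) ?_ ?_
    · intro i i' hii
      apply e.symm.injective
      apply Subtype.ext
      exact hv _ (e.symm i).2 _ (e.symm i').2 hii
    · intro i
      rw [← h i (lt_of_lt_of_le i.2 hT), ← Finset.sum_coe_sort s]
      exact Equiv.sum_comp e.symm (fun k : s => c k * v k ^ (i : ℕ))
  intro k hk
  have h2 := congrFun h1 (e ⟨k, hk⟩)
  simpa using h2

variable {ι : Type} [Fintype ι] [DecidableEq ι] {q : ℕ} (w : ι → Fin q → ℤ)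
variable {K : Type} [Field K] [CharZero K] [DecidableEq K]

theorem zero_est (al : ι → K) (j0 : Fin q) (T S : ℕ) (p : ι → ℤ)
    (hS : (univ.image al).card ≤ S) (hT : ∀ θ, (univ.filter fun k => al k = θ).card ≤ T)
    (hinj : ∀ k k', al k = al k' → w k j0 = w k' j0 → k = k')
    (h : ∀ σ : Fin q → ℕ, (∀ j, σ j < T) → ∀ s < S, val w al p σ s = 0) : p = 0 := by
  have hwt : ∀ k i, wt w k (Pi.single j0 i : Fin q → ℕ) = w k j0 ^ i := by
    intro k i
    unfold wt
    rw [Finset.prod_eq_single j0]
    · simp
    · intro j _ hj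
      simp [Pi.single_eq_of_ne hj]
    · intro hj; exact absurd (mem_univ _) hj
  -- separate the values of `al`
  have h1 : ∀ i < T, ∀ θ ∈ univ.image al,
      ∑ k ∈ univ.filter (fun k => al k = θ), (p k : K) * (w k j0 : K) ^ i = 0 := by
    intro i hi
    refine vandermonde_finset (univ.image al) (fun θ => θ) (fun _ _ _ _ h => h) _ S hS ?_
    intro s hs
    have h2 := h (Pi.single j0 i) (fun j => by
      by_cases hj : j = j0
      · subst hj; simpa using hi
      · rw [Pi.single_eq_of_ne hj]; omega) s hs
    rw [← h2, val, ← Finset.sum_fiberwise_of_maps_to (s := univ) (t := univ.image al)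
      (g := al) (fun k _ => Finset.mem_image_of_mem _ (mem_univ k))]
    refine Finset.sum_congr rfl fun θ _ => ?_
    rw [Finset.sum_mul]
    refine Finset.sum_congr rfl fun k hk => ?_
    rw [hwt, (Finset.mem_filter.1 hk).2]
    push_cast
    ring
  funext k₀
  have h3 := vandermonde_finset (univ.filter fun k => al k = al k₀) (fun k => (w k j0 : K))
    (fun k hk k' hk' hkk => hinj k k' (by
      rw [(Finset.mem_filter.1 hk).2, (Finset.mem_filter.1 hk').2]) (by exact_mod_cast hkk))
    (fun k => (p k : K)) T (hT _) (fun i hi => h1 i hi (al k₀)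
      (Finset.mem_image_of_mem _ (mem_univ k₀))) k₀ (by simp)
  exact_mod_cast h3

end Pool.Agent.BakerGap
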