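import Mathlib
import Pool.Agent.BakerGap.Core
import Pool.Agent.BakerGap.Zero

set_option autoImplicit false

/-!
The two instances of Baker's method: three logarithms `log γ, 2πi, log β` and two logarithms
`log γ, 2πi`.
-/

namespace Pool.Agent.BakerGap

open Complex Finset Polynomial

theorem norm_pow_sub_pow_le {x y : ℂ} {c : ℝ} (hc : 1 ≤ c) (hx : ‖x‖ ≤ c) (hy : ‖y‖ ≤ c)
    (m : ℕ) : ‖x ^ m - y ^ m‖ ≤ m * c ^ m * ‖x - y‖ := by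
  induction m with
  | zero => simp
  | succ m ih =>
    have e : x ^ (m + 1) - y ^ (m + 1) = x * (x ^ m - y ^ m) + (x - y) * y ^ m := by ring
    rw [e]
    refine (norm_add_le _ _).trans ?_
    rw [norm_mul, norm_mul, norm_pow]
    have h1 : ‖y‖ ^ m ≤ c ^ m := pow_le_pow_left₀ (norm_nonneg _) hy _
    have h2 : c ^ m ≤ c ^ (m + 1) := pow_le_pow_right₀ hc (by omega)
    have h3 := norm_nonneg (x - y)
    calc ‖x‖ * ‖x ^ m - y ^ m‖ + ‖x - y‖ * ‖y‖ ^ m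
        ≤ c * (m * c ^ m * ‖x - y‖) + ‖x - y‖ * c ^ (m + 1) := by
          have h4 : ‖x - y‖ * ‖y‖ ^ m ≤ ‖x - y‖ * c ^ (m + 1) := by gcongr; linarith
          have h5 : ‖x‖ * ‖x ^ m - y ^ m‖ ≤ c * (m * c ^ m * ‖x - y‖) := by gcongr
          linarith
      _ = ((m + 1 : ℕ) : ℝ) * c ^ (m + 1) * ‖x - y‖ := by push_cast; ring

/-- The number field data. -/
structure NF (K : Type) [Field K] [NumberField K] where
  φ : K →+* ℂ
  g : K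
  b : K
  a : ℕ
  ha : 0 < a
  ig : IsIntegral ℤ ((a : K) * g)
  ib : IsIntegral ℤ ((a : K) * b)
  h : ℝ
  hh : 1 ≤ h
  hg : ∀ τ : K →+* ℂ, ‖τ g‖ ≤ h
  hb : ∀ τ : K →+* ℂ, ‖τ b‖ ≤ h

namespace NF

variable {K : Type} [Field K] [NumberField K] (D : NF K)

theorem isIntegral_mul_pow {L : ℕ} {i j : ℕ} (hi : i < L) (hj : j < L) :
    IsIntegral ℤ (((D.a ^ (2 * L) : ℕ) : K) * (D.g ^ i * D.b ^ j)) := by
  obtain ⟨c, hc⟩ : ∃ c, 2 * L = c + i + j := ⟨2 * L - i - j, by omega⟩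
  have e : ((D.a ^ (2 * L) : ℕ) : K) * (D.g ^ i * D.b ^ j) =
      (D.a : K) ^ c * (((D.a : K) * D.g) ^ i * ((D.a : K) * D.b) ^ j) := by
    rw [hc]; push_cast; rw [pow_add, pow_add, mul_pow, mul_pow]; ring
  rw [e]
  refine IsIntegral.mul ?_ (IsIntegral.mul (D.ig.pow i) (D.ib.pow j))
  have : IsIntegral ℤ ((D.a : ℤ) : K) := isIntegral_algebraMap (R := ℤ) (A := K) (x := (D.a : ℤ))
  have h2 := this.pow c
  simpa using h2

theorem norm_conj_le {L : ℕ} {i j : ℕ} (hi : i < L) (hj : j < L) (τ : K →+* ℂ) :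
    ‖τ (D.g ^ i * D.b ^ j)‖ ≤ D.h ^ (2 * L) := by
  rw [map_mul, map_pow, map_pow, norm_mul, norm_pow, norm_pow]
  have h0 : 0 ≤ D.h := by linarith [D.hh]
  calc ‖τ D.g‖ ^ i * ‖τ D.b‖ ^ j ≤ D.h ^ i * D.h ^ j := by
        have := D.hg τ
        have := D.hb τ
        gcongr
    _ = D.h ^ (i + j) := by rw [pow_add]
    _ ≤ D.h ^ (2 * L) := pow_le_pow_right₀ D.hh (by omega)

end NF

theorem pi_lt : Real.pi < 3.15 := Real.pi_lt_d2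

theorem norm_two_pi_I : ‖(2 * Real.pi * I : ℂ)‖ = 2 * Real.pi := by
  simp [abs_of_pos Real.pi_pos]

theorem exp_int_two_pi (n : ℤ) : exp ((n : ℂ) * (2 * Real.pi * I)) = 1 := by
  exact Complex.exp_int_mul_two_pi_mul_I n

/-- the smallness constant -/
theorem eps_bound {N : ℕ} (hN : 5000 ≤ N) :
    (N : ℝ) ^ 18 * 2 ^ (N ^ 18) * (2 * (1 / 2) ^ (2 * N ^ 42)) * 2 ^ (N ^ 42) ≤ 1 := by
  have hN0 : 0 < N := by omega
  have hN2 : (N : ℝ) ≤ 2 ^ N := by exact_mod_cast Nat.lt_two_pow_self.le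
  have h1 : (N : ℝ) ^ 18 ≤ 2 ^ (N * 18) := pow_le_two_pow (by positivity) hN2 18
  have h2 : (N : ℝ) ^ 18 * 2 ^ (N ^ 18) ≤ 2 ^ (N * 18 + N ^ 18) :=
    mul_le_two_pow h1 (by positivity) le_rfl
  have h3 : (N : ℝ) ^ 18 * 2 ^ (N ^ 18) * 2 ≤ 2 ^ (N * 18 + N ^ 18 + 1) :=
    mul_le_two_pow h2 (by norm_num) (by norm_num)
  have h4 : N * 18 + N ^ 18 + 1 ≤ N ^ 42 := by
    have g1 : N ^ 1 ≤ N ^ 18 := Nat.pow_le_pow_right hN0 (by norm_num)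
    have g2 : 5000 * N ^ 18 ≤ N ^ 42 := by
      calc 5000 * N ^ 18 ≤ N * N ^ 18 := by gcongr
        _ = N ^ 19 := by ring
        _ ≤ N ^ 42 := Nat.pow_le_pow_right hN0 (by norm_num)
    rw [pow_one] at g1
    omega
  have h5 : (N : ℝ) ^ 18 * 2 ^ (N ^ 18) * 2 ≤ 2 ^ (N ^ 42) :=
    h3.trans (pow_le_pow_right₀ (by norm_num) h4)
  have e : (N : ℝ) ^ 18 * 2 ^ (N ^ 18) * (2 * (1 / 2) ^ (2 * N ^ 42)) * 2 ^ (N ^ 42) =
      ((N : ℝ) ^ 18 * 2 ^ (N ^ 18) * 2) * ((1 / 2) ^ (N ^ 42)) *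
        ((1 / 2) ^ (N ^ 42) * 2 ^ (N ^ 42)) := by
    rw [two_mul (N ^ 42), pow_add]; ring
  rw [e, ← mul_pow]
  norm_num
  calc (N : ℝ) ^ 18 * 2 ^ (N ^ 18) * 2 * (1 / 2) ^ (N ^ 42)
      ≤ 2 ^ (N ^ 42) * (1 / 2) ^ (N ^ 42) := by gcongr
    _ = 1 := by rw [← mul_pow]; norm_num

end Pool.Agent.BakerGap
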