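import Mathlib
import Pool.Agent.BakerGap.App

set_option autoImplicit false

/-!
Number field data from integer polynomials.
-/

namespace Pool.Agent.BakerGap

open Polynomial

theorem root_norm_le (g : ℤ[X]) (d : ℕ) (hg0 : g ≠ 0) (hc : ∀ i, |g.coeff i| ≤ 2 ^ d) (x : ℂ)
    (hx : aeval x g = 0) : ‖x‖ ≤ 2 ^ (d + 1) := by
  set G : ℂ[X] := g.map (Int.castRingHom ℂ) with hG
  have hinj : Function.Injective (Int.castRingHom ℂ) := fun a b h => by
    have : (a : ℂ) = b := h
    exact_mod_cast this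
  have hG0 : G ≠ 0 := by
    rw [hG, Ne, Polynomial.map_eq_zero_iff hinj]
    exact hg0
  have hroot : G.IsRoot x := by
    rw [IsRoot.def, hG, eval_map]
    rw [aeval_def] at hx
    exact hx
  have h1 := hroot.norm_lt_cauchyBound hG0
  have hlc : (1 : NNReal) ≤ ‖G.leadingCoeff‖₊ := by
    rw [hG, leadingCoeff_map_of_injective hinj]
    rw [← NNReal.coe_le_coe, coe_nnnorm]
    change (1 : ℝ) ≤ ‖((g.leadingCoeff : ℤ) : ℂ)‖
    rw [Complex.norm_intCast]
    exact_mod_cast Int.one_le_abs (leadingCoeff_ne_zero.2 hg0)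
  have h2 : cauchyBound G ≤ 2 ^ d + 1 := by
    unfold cauchyBound
    gcongr
    have h3 : (Finset.range G.natDegree).sup (fun i => ‖G.coeff i‖₊) ≤ 2 ^ d := by
      apply Finset.sup_le
      intro i _
      rw [← NNReal.coe_le_coe, coe_nnnorm, hG, coeff_map]
      change ‖((g.coeff i : ℤ) : ℂ)‖ ≤ _
      rw [Complex.norm_intCast]
      push_cast
      exact_mod_cast hc i
    calc (Finset.range G.natDegree).sup (fun i => ‖G.coeff i‖₊) / ‖G.leadingCoeff‖₊
        ≤ (Finset.range G.natDegree).sup (fun i => ‖G.coeff i‖₊) :=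
          div_le_of_le_mul₀ (by positivity) (by positivity)
            (le_mul_of_one_le_right (by positivity) hlc)
      _ ≤ 2 ^ d := h3
  have h4 : ‖x‖ < 2 ^ d + 1 := by
    have := lt_of_lt_of_le h1 h2
    exact_mod_cast (NNReal.coe_lt_coe.2 this)
  have h5 : (1 : ℝ) ≤ 2 ^ d := one_le_pow₀ (by norm_num)
  rw [pow_succ]
  linarith

theorem aeval_map_rat (g : ℤ[X]) (x : ℂ) :
    aeval x (g.map (Int.castRingHom ℚ)) = aeval x g := by
  have := Polynomial.aeval_map_algebraMap ℚ x g
  rwa [algebraMap_int_eq] at this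

theorem isIntegral_rat (g : ℤ[X]) (hg0 : g ≠ 0) (x : ℂ) (hx : aeval x g = 0) : IsIntegral ℚ x := by
  rw [← isAlgebraic_iff_isIntegral]
  have hinj : Function.Injective (Int.castRingHom ℚ) := fun a b h => by
    have : (a : ℚ) = b := h
    exact_mod_cast this
  refine ⟨g.map (Int.castRingHom ℚ), ?_, ?_⟩
  · rw [Ne, Polynomial.map_eq_zero_iff hinj]; exact hg0
  · rw [aeval_map_rat]; exact hx

theorem minpoly_natDegree_le (g : ℤ[X]) (hg0 : g ≠ 0) (x : ℂ) (hx : aeval x g = 0) :
    (minpoly ℚ x).natDegree ≤ g.natDegree := by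
  have hinj : Function.Injective (Int.castRingHom ℚ) := fun a b h => by
    have : (a : ℚ) = b := h
    exact_mod_cast this
  have h1 : g.map (Int.castRingHom ℚ) ≠ 0 := by
    rw [Ne, Polynomial.map_eq_zero_iff hinj]; exact hg0
  have h2 : aeval x (g.map (Int.castRingHom ℚ)) = 0 := by
    rw [aeval_map_rat]; exact hx
  have h3 := minpoly.degree_le_of_ne_zero ℚ x h1 h2
  have h4 := natDegree_le_natDegree h3
  rwa [natDegree_map_eq_of_injective hinj] at h4

/-- The number field data attached to two algebraic numbers. -/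
theorem exists_NF (d e : ℕ) (γ β : ℂ) (g B : ℤ[X]) (hg0 : g ≠ 0) (hg : aeval γ g = 0)
    (hgd : g.natDegree ≤ d) (hgc : ∀ i, |g.coeff i| ≤ 2 ^ d) (hB0 : B ≠ 0) (hB : aeval β B = 0)
    (hBd : B.natDegree ≤ e) (hBc : ∀ i, |B.coeff i| ≤ 2 ^ e) :
    ∃ (K : Type) (_ : Field K) (_ : NumberField K) (E : NF K), E.φ E.g = γ ∧ E.φ E.b = β ∧
      Module.finrank ℚ K ≤ d * e ∧ E.a * E.h ≤ 2 ^ (2 * (d + e) + 1) := by
  have hγi := isIntegral_rat g hg0 γ hg
  have hβi := isIntegral_rat B hB0 β hB
  have : FiniteDimensional ℚ (IntermediateField.adjoin ℚ {γ}) :=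
    IntermediateField.adjoin.finiteDimensional hγi
  have : FiniteDimensional ℚ (IntermediateField.adjoin ℚ {β}) :=
    IntermediateField.adjoin.finiteDimensional hβi
  let F : IntermediateField ℚ ℂ := IntermediateField.adjoin ℚ {γ} ⊔ IntermediateField.adjoin ℚ {β}
  have : FiniteDimensional ℚ F := IntermediateField.finiteDimensional_sup _ _
  have : NumberField F := ⟨⟩
  have hγF : γ ∈ F := (le_sup_left : IntermediateField.adjoin ℚ {γ} ≤ F)
    (IntermediateField.mem_adjoin_simple_self ℚ γ)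
  have hβF : β ∈ F := (le_sup_right : IntermediateField.adjoin ℚ {β} ≤ F)
    (IntermediateField.mem_adjoin_simple_self ℚ β)
  set gK : F := ⟨γ, hγF⟩ with hgK
  set bK : F := ⟨β, hβF⟩ with hbK
  have hval : ∀ (P : ℤ[X]) (x : F), (aeval x P = 0 ↔ aeval (x : ℂ) P = 0) := by
    intro P x
    have h1 : aeval (x : ℂ) P = ((aeval x P : F) : ℂ) := by
      have := aeval_algebraMap_apply (A := F) (B := ℂ) x P
      exact this
    rw [h1]
    exact (ZeroMemClass.coe_eq_zero).symm
  have hgK0 : aeval gK g = 0 := (hval g gK).2 hg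
  have hbK0 : aeval bK B = 0 := (hval B bK).2 hB
  set a : ℕ := g.leadingCoeff.natAbs * B.leadingCoeff.natAbs with ha
  have hlg : 0 < g.leadingCoeff.natAbs := Int.natAbs_pos.2 (leadingCoeff_ne_zero.2 hg0)
  have hlB : 0 < B.leadingCoeff.natAbs := Int.natAbs_pos.2 (leadingCoeff_ne_zero.2 hB0)
  have hnat : ∀ (c : ℤ) (x : F), IsIntegral ℤ (c • x) → ∀ m : ℕ,
      IsIntegral ℤ (((c.natAbs * m : ℕ) : F) * x) := by
    intro c x hcx m
    have h1 : IsIntegral ℤ ((c.natAbs : F) * x) := by
      rw [zsmul_eq_mul] at hcx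
      rcases Int.natAbs_eq c with h | h
      · have e : ((c.natAbs : ℕ) : F) = ((c : ℤ) : F) := by
          conv_rhs => rw [h]
          simp
        rw [e]; exact hcx
      · have e : ((c.natAbs : ℕ) : F) = -((c : ℤ) : F) := by
          conv_rhs => rw [h]
          simp
        rw [e, neg_mul]; exact hcx.neg
    have h2 : IsIntegral ℤ ((m : ℕ) : F) := by
      have : IsIntegral ℤ (((m : ℕ) : ℤ) : F) := isIntegral_algebraMap (R := ℤ) (A := F) (x := (m : ℤ))
      simpa using this
    have e : ((c.natAbs * m : ℕ) : F) * x = (m : F) * ((c.natAbs : F) * x) := by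
      push_cast; ring
    rw [e]
    exact h2.mul h1
  refine ⟨F, inferInstance, inferInstance,
    { φ := algebraMap F ℂ
      g := gK
      b := bK
      a := a
      ha := Nat.mul_pos hlg hlB
      ig := hnat _ _ (isIntegral_leadingCoeff_smul g gK hgK0) _
      ib := by
        rw [ha, mul_comm g.leadingCoeff.natAbs]
        exact hnat _ _ (isIntegral_leadingCoeff_smul B bK hbK0) _
      h := 2 ^ (d + e + 1)
      hh := one_le_pow₀ (by norm_num)
      hg := fun τ => by
        have h1 : aeval (τ gK) g = 0 := by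
          have h2 : τ (aeval gK g) = aeval (τ gK) g := by
            rw [aeval_def, aeval_def, hom_eval₂]
            congr 1
            exact RingHom.ext_int _ _
          rw [← h2, hgK0, map_zero]
        refine (root_norm_le g d hg0 hgc _ h1).trans (pow_le_pow_right₀ (by norm_num) (by omega))
      hb := fun τ => by
        have h1 : aeval (τ bK) B = 0 := by
          have h2 : τ (aeval bK B) = aeval (τ bK) B := by
            rw [aeval_def, aeval_def, hom_eval₂]
            congr 1
            exact RingHom.ext_int _ _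
          rw [← h2, hbK0, map_zero]
        refine (root_norm_le B e hB0 hBc _ h1).trans (pow_le_pow_right₀ (by norm_num) (by omega)) },
    rfl, rfl, ?_, ?_⟩
  · have h1 : Module.finrank ℚ F ≤ Module.finrank ℚ (IntermediateField.adjoin ℚ {γ}) *
        Module.finrank ℚ (IntermediateField.adjoin ℚ {β}) := IntermediateField.finrank_sup_le _ _
    rw [IntermediateField.adjoin.finrank hγi, IntermediateField.adjoin.finrank hβi] at h1
    exact h1.trans (Nat.mul_le_mul ((minpoly_natDegree_le g hg0 γ hg).trans hgd)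
      ((minpoly_natDegree_le B hB0 β hB).trans hBd))
  · change ((a : ℕ) : ℝ) * 2 ^ (d + e + 1) ≤ _
    have h1 : (g.leadingCoeff.natAbs : ℤ) ≤ 2 ^ d := by
      rw [Int.natCast_natAbs]; exact hgc _
    have h2 : (B.leadingCoeff.natAbs : ℤ) ≤ 2 ^ e := by
      rw [Int.natCast_natAbs]; exact hBc _
    have h1' : (g.leadingCoeff.natAbs : ℝ) ≤ 2 ^ d := by exact_mod_cast h1
    have h2' : (B.leadingCoeff.natAbs : ℝ) ≤ 2 ^ e := by exact_mod_cast h2
    rw [ha]
    push_cast
    have h3 : (g.leadingCoeff.natAbs : ℝ) * (B.leadingCoeff.natAbs : ℝ) ≤ 2 ^ (d + e) :=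
      mul_le_two_pow h1' (by positivity) h2'
    have h4 := mul_le_two_pow h3 (by positivity : (0 : ℝ) ≤ 2 ^ (d + e + 1)) le_rfl
    refine h4.trans (pow_le_pow_right₀ (by norm_num) (by omega))

end Pool.Agent.BakerGap
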