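import Mathlib
import Pool.Agent.BakerGap.App

set_option autoImplicit false

/-!
Three logarithms.
-/

namespace Pool.Agent.BakerGap

open Complex Finset Polynomial

/-- Index type. -/
abbrev I3 (L : ℕ) := Fin L × Fin L × Fin L

/-- Weights. -/
def w3 (L n : ℕ) (k' : ℤ) (k : I3 L) : Fin 2 → ℤ :=
  ![((k.1 : ℕ) : ℤ) + ((k.2.2 : ℕ) : ℤ) * n, ((k.2.1 : ℕ) : ℤ) - ((k.2.2 : ℕ) : ℤ) * k']

/-- Directions. -/
noncomputable def η3 (θ : ℝ) : Fin 2 → ℂ := ![(θ : ℂ) * I, 2 * Real.pi * I]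

theorem freq3 (L n : ℕ) (k' : ℤ) (θ : ℝ) (k : I3 L) :
    freq (w3 L n k') (η3 θ) k =
      (((k.1 : ℕ) * θ + (k.2.1 : ℕ) * (2 * Real.pi) + (k.2.2 : ℕ) * (n * θ - 2 * Real.pi * k') :
        ℝ) : ℂ) * I := by
  unfold freq w3 η3
  rw [Fin.sum_univ_two]
  simp only [Matrix.cons_val_zero, Matrix.cons_val_one]
  push_cast
  ring

theorem three_logs {K : Type} [Field K] [NumberField K] (D : NF K) (hγ : ‖D.φ D.g‖ = 1)
    (n N lam : ℕ) (hn : 1 ≤ n) (hlam : 1 ≤ lam)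
    (hN : 5000 * Module.finrank ℚ K * lam ≤ N) (hah : D.a * D.h ≤ 2 ^ lam)
    (hX : 2 * n * N ^ 6 ≤ 2 ^ lam)
    (hinj : ∀ a b a' b' : ℕ, a < N ^ 6 → b < N ^ 6 → a' < N ^ 6 → b' < N ^ 6 →
      D.g ^ a * D.b ^ b = D.g ^ a' * D.b ^ b' → a = a' ∧ b = b')
    (hsmall : ‖D.φ D.g ^ n - D.φ D.b‖ ≤ (1 / 2) ^ (2 * N ^ 42)) : False := by
  classical
  set f := Module.finrank ℚ K with hf
  have hf0 : 1 ≤ f := Module.finrank_pos
  have hfl : 1 ≤ f * lam := Nat.mul_pos hf0 hlam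
  have hN' : 5000 ≤ N := by
    calc 5000 = 5000 * 1 := by ring
      _ ≤ 5000 * (f * lam) := by gcongr
      _ = 5000 * f * lam := by ring
      _ ≤ N := hN
  have hN0 : 0 < N := by omega
  have hN1 : (1 : ℝ) ≤ N := by exact_mod_cast hN0
  set γ := D.φ D.g with hγdef
  set β := D.φ D.b with hβdef
  set θ := arg γ with hθ
  have hγe : γ = exp ((θ : ℂ) * I) := by
    have := Complex.norm_mul_exp_arg_mul_I γ
    rw [hγ] at this
    rw [← this]; simp [hθ]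
  have hθπ : |θ| ≤ Real.pi := Complex.abs_arg_le_pi γ
  have hpi := Real.pi_pos
  have hpi2 := pi_lt
  -- the integer `k'`
  set k' : ℤ := round ((n : ℝ) * θ / (2 * Real.pi)) with hk'
  have hr := abs_sub_round ((n : ℝ) * θ / (2 * Real.pi))
  rw [← hk'] at hr
  have hmu : |(n : ℝ) * θ - 2 * Real.pi * k'| ≤ Real.pi := by
    have e : (n : ℝ) * θ - 2 * Real.pi * k' = (2 * Real.pi) * ((n : ℝ) * θ / (2 * Real.pi) - k') := by
      field_simp
    rw [e, abs_mul, abs_of_pos (by positivity : (0 : ℝ) < 2 * Real.pi)]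
    nlinarith
  have hn1 : (1 : ℝ) ≤ n := by exact_mod_cast hn
  have hk'n : |(k' : ℝ)| ≤ n := by
    have h1 : |(n : ℝ) * θ / (2 * Real.pi)| ≤ n / 2 := by
      rw [abs_div, abs_mul, abs_of_pos (by positivity : (0 : ℝ) < 2 * Real.pi),
        abs_of_nonneg (by positivity : (0 : ℝ) ≤ n), div_le_iff₀ (by positivity)]
      nlinarith
    have h2 : |(k' : ℝ)| ≤ |(n : ℝ) * θ / (2 * Real.pi)| + |(n : ℝ) * θ / (2 * Real.pi) - k'| := by
      have := abs_sub_abs_le_abs_sub (k' : ℝ) ((n : ℝ) * θ / (2 * Real.pi))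
      rw [abs_sub_comm] at this
      linarith
    linarith
  set L := N ^ 6 with hL
  have hL0 : 0 < L := by positivity
  have hL1 : (1 : ℝ) ≤ L := by exact_mod_cast hL0
  have hLr : ((L : ℕ) : ℝ) = (N : ℝ) ^ 6 := by rw [hL]; push_cast; rfl
  have hcast : ∀ c : Fin L, ((c : ℕ) : ℝ) ≤ L := fun c => by exact_mod_cast c.2.le
  have hXr : 2 * (n : ℝ) * L ≤ 2 ^ lam := by
    have : ((2 * n * N ^ 6 : ℕ) : ℝ) ≤ ((2 ^ lam : ℕ) : ℝ) := by exact_mod_cast hX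
    push_cast at this
    rw [hLr]; exact this
  have hw : ∀ (k : I3 L) (j : Fin 2), |(w3 L n k' k j : ℝ)| ≤ 2 ^ lam := by
    intro k j
    have c1 := hcast k.1
    have c2 := hcast k.2.1
    have c3 := hcast k.2.2
    have d1 : (0 : ℝ) ≤ ((k.1 : ℕ) : ℝ) := by positivity
    have d2 : (0 : ℝ) ≤ ((k.2.1 : ℕ) : ℝ) := by positivity
    have d3 : (0 : ℝ) ≤ ((k.2.2 : ℕ) : ℝ) := by positivity
    have hLn : (L : ℝ) ≤ L * n := by nlinarith
    fin_cases j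
    · change |((((k.1 : ℕ) : ℤ) + ((k.2.2 : ℕ) : ℤ) * n : ℤ) : ℝ)| ≤ _
      push_cast
      rw [abs_of_nonneg (by positivity)]
      have : ((k.2.2 : ℕ) : ℝ) * n ≤ L * n := by gcongr
      nlinarith
    · change |((((k.2.1 : ℕ) : ℤ) - ((k.2.2 : ℕ) : ℤ) * k' : ℤ) : ℝ)| ≤ _
      push_cast
      refine (abs_sub _ _).trans ?_
      rw [abs_mul, abs_of_nonneg d2, abs_of_nonneg d3]
      have : ((k.2.2 : ℕ) : ℝ) * |(k' : ℝ)| ≤ L * n := by gcongr
      nlinarith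
  have hfreqn : ∀ k : I3 L, ‖freq (w3 L n k') (η3 θ) k‖ ≤ 13 * (N : ℝ) ^ 6 := by
    intro k
    rw [freq3, norm_mul, Complex.norm_I, mul_one, Complex.norm_real, Real.norm_eq_abs, ← hLr]
    have c1 := hcast k.1
    have c2 := hcast k.2.1
    have c3 := hcast k.2.2
    have h1 : |((k.1 : ℕ) : ℝ) * θ| ≤ L * Real.pi := by
      rw [abs_mul, abs_of_nonneg (by positivity : (0 : ℝ) ≤ ((k.1 : ℕ) : ℝ))]
      gcongr
    have h2 : |((k.2.1 : ℕ) : ℝ) * (2 * Real.pi)| ≤ L * (2 * Real.pi) := by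
      rw [abs_of_nonneg (by positivity)]
      gcongr
    have h3 : |((k.2.2 : ℕ) : ℝ) * (n * θ - 2 * Real.pi * k')| ≤ L * Real.pi := by
      rw [abs_mul, abs_of_nonneg (by positivity : (0 : ℝ) ≤ ((k.2.2 : ℕ) : ℝ))]
      gcongr
    have h4 := abs_add_three (((k.1 : ℕ) : ℝ) * θ) (((k.2.1 : ℕ) : ℝ) * (2 * Real.pi))
      (((k.2.2 : ℕ) : ℝ) * (n * θ - 2 * Real.pi * k'))
    nlinarith
  set ε0 : ℝ := (1 / 2) ^ (2 * N ^ 42) with hε0
  have hε00 : 0 < ε0 := by positivity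
  have hε01 : ε0 ≤ 1 := pow_le_one₀ (by norm_num) (by norm_num)
  set eps : ℝ := (N : ℝ) ^ 18 * 2 ^ (N ^ 18) * (2 * ε0) with heps
  have heb : eps * 2 ^ (N ^ 42) ≤ 1 := eps_bound hN'
  have heps0 : 0 < eps := by positivity
  have heps1 : eps ≤ 1 := by
    have : (1 : ℝ) ≤ 2 ^ (N ^ 42) := one_le_pow₀ (by norm_num)
    nlinarith
  have hβ2 : ‖β‖ ≤ 2 := by
    have h1 : ‖γ ^ n‖ = 1 := by rw [norm_pow, hγ, one_pow]
    have h2 := norm_sub_norm_le β (γ ^ n)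
    rw [norm_sub_rev] at h2
    linarith
  -- the approximation
  have happ : ∀ (k : I3 L), ∀ s ≤ N ^ 12, ‖exp (freq (w3 L n k') (η3 θ) k * s) -
      D.φ (D.g ^ (k.1 : ℕ) * D.b ^ (k.2.2 : ℕ)) ^ s‖ ≤ eps := by
    intro k s hs
    have e1 : exp (freq (w3 L n k') (η3 θ) k * s) =
        γ ^ ((k.1 : ℕ) * s) * (γ ^ n) ^ ((k.2.2 : ℕ) * s) := by
      rw [freq3]
      have e2 : ((((k.1 : ℕ) : ℝ) * θ + ((k.2.1 : ℕ) : ℝ) * (2 * Real.pi) +
          ((k.2.2 : ℕ) : ℝ) * (n * θ - 2 * Real.pi * k') : ℝ) : ℂ) * I * s =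
          (((k.1 : ℕ) * s : ℕ) : ℂ) * ((θ : ℂ) * I) +
          (((k.2.2 : ℕ) * s : ℕ) : ℂ) * ((n : ℂ) * ((θ : ℂ) * I)) +
          ((((k.2.1 : ℕ) : ℤ) * s - ((k.2.2 : ℕ) : ℤ) * s * k' : ℤ) : ℂ) * (2 * Real.pi * I) := by
        push_cast; ring
      rw [e2, exp_add, exp_add, exp_int_two_pi, mul_one, exp_nat_mul, exp_nat_mul, exp_nat_mul,
        ← hγe]
    have e3 : D.φ (D.g ^ (k.1 : ℕ) * D.b ^ (k.2.2 : ℕ)) ^ s =
        γ ^ ((k.1 : ℕ) * s) * β ^ ((k.2.2 : ℕ) * s) := by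
      rw [map_mul, map_pow, map_pow, mul_pow, ← pow_mul, ← pow_mul]
    rw [e1, e3, ← mul_sub, norm_mul, norm_pow, hγ, one_pow, one_mul]
    refine (norm_pow_sub_pow_le (c := 2) (by norm_num) (by rw [norm_pow, hγ, one_pow]; norm_num)
      hβ2 _).trans ?_
    have hks : (k.2.2 : ℕ) * s ≤ N ^ 18 := by
      calc (k.2.2 : ℕ) * s ≤ N ^ 6 * N ^ 12 := Nat.mul_le_mul k.2.2.2.le hs
        _ = N ^ 18 := by ring
    have hks' : (((k.2.2 : ℕ) * s : ℕ) : ℝ) ≤ (N : ℝ) ^ 18 := by exact_mod_cast hks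
    have h2p : (2 : ℝ) ^ ((k.2.2 : ℕ) * s) ≤ 2 ^ (N ^ 18) := pow_le_pow_right₀ (by norm_num) hks
    rw [heps]
    have h3 := norm_nonneg (γ ^ n - β)
    calc (((k.2.2 : ℕ) * s : ℕ) : ℝ) * 2 ^ ((k.2.2 : ℕ) * s) * ‖γ ^ n - β‖
        ≤ (N : ℝ) ^ 18 * 2 ^ (N ^ 18) * (2 * ε0) := by gcongr; linarith
      _ = _ := rfl
  let B : Setup K :=
    { φ := D.φ
      ι := I3 L
      fι := inferInstance
      q := 2
      w := w3 L n k'
      η := η3 θ
      al := fun k => D.g ^ (k.1 : ℕ) * D.b ^ (k.2.2 : ℕ)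
      A := D.a ^ (2 * L)
      hA := pow_pos D.ha _
      hint := fun k => D.isIntegral_mul_pow k.1.2 k.2.2.2
      H := D.h ^ (2 * L)
      hH := one_le_pow₀ D.hh
      hconj := fun τ k => D.norm_conj_le k.1.2 k.2.2.2 τ
      X := 2 ^ lam
      hX := one_le_pow₀ (by norm_num)
      hw := hw
      hη := by
        rw [Fin.sum_univ_two]
        simp only [η3, Matrix.cons_val_zero, Matrix.cons_val_one]
        rw [norm_two_pi_I, norm_mul, Complex.norm_I, mul_one, Complex.norm_real, Real.norm_eq_abs]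
        linarith
      Ω := 13 * (N : ℝ) ^ 6
      hΩ := hfreqn
      hre := fun k => by
        rw [freq3]
        simp
      eps := eps
      heps0 := heps0
      heps := heps1
      Smax := N ^ 12
      happ := happ }
  have hBA : ((B.A : ℕ) : ℝ) * B.H ≤ 2 ^ (2 * lam * N ^ 6) := by
    change ((D.a ^ (2 * L) : ℕ) : ℝ) * D.h ^ (2 * L) ≤ _
    push_cast
    rw [← mul_pow]
    have h0 : 0 ≤ (D.a : ℝ) * D.h := by have := D.hh; positivity
    refine (pow_le_two_pow h0 hah _).trans (pow_le_pow_right₀ (by norm_num) ?_)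
    rw [hL]
    exact le_of_eq (by ring)
  have hcard : Fintype.card B.ι = N ^ 18 := by
    change Fintype.card (I3 L) = N ^ 18
    simp only [I3, Fintype.card_prod, Fintype.card_fin]
    rw [hL]; ring
  obtain ⟨p, hp0, hp⟩ := B.core N lam hlam hN le_rfl le_rfl hBA le_rfl le_rfl heb (by
    rw [hcard]
    change 8 * f * ((12 * N ^ 8) ^ 2 * N) ≤ N ^ 18
    calc 8 * f * ((12 * N ^ 8) ^ 2 * N) = (1152 * f) * N ^ 17 := by ring
      _ ≤ (5000 * f * lam) * N ^ 17 := by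
          refine Nat.mul_le_mul_right _ ?_
          calc 1152 * f ≤ 5000 * f := Nat.mul_le_mul_right _ (by norm_num)
            _ = 5000 * f * 1 := by ring
            _ ≤ 5000 * f * lam := Nat.mul_le_mul_left _ hlam
      _ ≤ N * N ^ 17 := by gcongr
      _ = N ^ 18 := by ring) (by rw [hcard])
  apply hp0
  refine zero_est (w3 L n k') (fun k : I3 L => D.g ^ (k.1 : ℕ) * D.b ^ (k.2.2 : ℕ)) 1 (N ^ 8)
    (N ^ 12) p ?_ ?_ ?_ hp
  · have h1 : (univ.image fun k : I3 L => D.g ^ (k.1 : ℕ) * D.b ^ (k.2.2 : ℕ)) ⊆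
        univ.image (fun c : Fin L × Fin L => D.g ^ (c.1 : ℕ) * D.b ^ (c.2 : ℕ)) := by
      intro x hx
      obtain ⟨k, _, rfl⟩ := Finset.mem_image.1 hx
      exact Finset.mem_image.2 ⟨(k.1, k.2.2), mem_univ _, rfl⟩
    refine (Finset.card_le_card h1).trans (Finset.card_image_le.trans ?_)
    rw [Finset.card_univ, Fintype.card_prod, Fintype.card_fin, hL]
    exact le_of_eq (by ring)
  · intro x
    have h1 : (univ.filter fun k : I3 L => D.g ^ (k.1 : ℕ) * D.b ^ (k.2.2 : ℕ) = x).card ≤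
        (univ : Finset (Fin L)).card := by
      refine Finset.card_le_card_of_injOn (fun k => k.2.1) (fun _ _ => mem_univ _) ?_
      intro k hk k₂ hk₂ hkk
      have g1 := (Finset.mem_filter.1 hk).2
      have g2 := (Finset.mem_filter.1 hk₂).2
      have g3 := hinj _ _ _ _ k.1.2 k.2.2.2 k₂.1.2 k₂.2.2.2 (g1.trans g2.symm)
      exact Prod.ext (Fin.ext g3.1) (Prod.ext hkk (Fin.ext g3.2))
    refine h1.trans ?_
    rw [Finset.card_univ, Fintype.card_fin, hL]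
    exact Nat.pow_le_pow_right hN0 (by norm_num)
  · intro k k₂ hkk hww
    have g3 := hinj _ _ _ _ k.1.2 k.2.2.2 k₂.1.2 k₂.2.2.2 hkk
    change ((k.2.1 : ℕ) : ℤ) - ((k.2.2 : ℕ) : ℤ) * k' =
      ((k₂.2.1 : ℕ) : ℤ) - ((k₂.2.2 : ℕ) : ℤ) * k' at hww
    rw [g3.2] at hww
    have g4 : (k.2.1 : ℕ) = (k₂.2.1 : ℕ) := by
      have : ((k.2.1 : ℕ) : ℤ) = ((k₂.2.1 : ℕ) : ℤ) := by linarith
      exact_mod_cast this
    exact Prod.ext (Fin.ext g3.1) (Prod.ext (Fin.ext g4) (Fin.ext g3.2))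

end Pool.Agent.BakerGap
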