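import Mathlib
import Pool.Agent.BakerGap.App

set_option autoImplicit false

/-!
Two logarithms: powers of a number of absolute value one are not too close to one.
-/

namespace Pool.Agent.BakerGap

open Complex Finset Polynomial

/-- Index type. -/
abbrev I2 (L : ℕ) := Fin L × Fin L

/-- Weights. -/
def w2 (L m : ℕ) (k' : ℤ) (k : I2 L) : Fin 1 → ℤ :=
  fun _ => ((k.1 : ℕ) : ℤ) * k' + ((k.2 : ℕ) : ℤ) * m

/-- Directions. -/
noncomputable def η2 (m : ℕ) : Fin 1 → ℂ := fun _ => 2 * Real.pi * I / m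

theorem freq2 (L m : ℕ) (hm : 1 ≤ m) (k' : ℤ) (k : I2 L) :
    freq (w2 L m k') (η2 m) k =
      (((k.1 : ℕ) * (2 * Real.pi * k' / m) + (k.2 : ℕ) * (2 * Real.pi) : ℝ) : ℂ) * I := by
  have hm0 : (m : ℂ) ≠ 0 := by exact_mod_cast (by omega : m ≠ 0)
  unfold freq w2 η2
  rw [Fin.sum_univ_one]
  push_cast
  field_simp

theorem norm_exp_sub_exp_le (a b : ℝ) : ‖exp ((a : ℂ) * I) - exp ((b : ℂ) * I)‖ ≤ |a - b| := by
  have e : exp ((a : ℂ) * I) - exp ((b : ℂ) * I) =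
      exp ((b : ℂ) * I) * (exp (I * ((a - b : ℝ) : ℂ)) - 1) := by
    rw [mul_sub, ← exp_add, mul_one]
    congr 2
    push_cast; ring
  rw [e, norm_mul, Complex.norm_exp_ofReal_mul_I, one_mul]
  exact Real.norm_exp_I_mul_ofReal_sub_one_le

theorem abs_le_of_norm_exp_sub_one (x : ℝ) (hx : |x| ≤ Real.pi) :
    |x| ≤ 2 * ‖exp ((x : ℂ) * I) - 1‖ := by
  have h1 : ‖exp ((x : ℂ) * I) - 1‖ = 2 * |Real.sin (x / 2)| := by
    rw [mul_comm, Complex.norm_exp_I_mul_ofReal_sub_one, Real.norm_eq_abs, abs_mul]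
    norm_num
  have h2 : 2 / Real.pi * |x / 2| ≤ |Real.sin (x / 2)| := by
    apply Real.mul_abs_le_abs_sin
    rw [abs_div]
    norm_num
    linarith
  rw [h1]
  have hpi := Real.pi_pos
  have hpi2 := pi_lt
  rw [abs_div, abs_two] at h2
  have h3 : 2 / Real.pi * (|x| / 2) = |x| / Real.pi := by field_simp
  rw [h3, div_le_iff₀ hpi] at h2
  have h4 : 0 ≤ |Real.sin (x / 2)| := abs_nonneg _
  nlinarith

theorem two_logs {K : Type} [Field K] [NumberField K] (D : NF K) (hγ : ‖D.φ D.g‖ = 1)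
    (htor : ∀ j : ℕ, 0 < j → D.g ^ j ≠ 1) (m N lam : ℕ) (hm : 1 ≤ m) (hlam : 1 ≤ lam)
    (hN : 5000 * Module.finrank ℚ K * lam ≤ N) (hah : D.a * D.h ≤ 2 ^ lam)
    (hX : 2 * m * N ^ 6 ≤ 2 ^ lam)
    (hsmall : ‖D.φ D.g ^ m - 1‖ ≤ (1 / 2) ^ (2 * N ^ 42)) : False := by
  classical
  set f := Module.finrank ℚ K with hf
  have hf0 : 1 ≤ f := Module.finrank_pos
  have hfl : 1 ≤ f * lam := Nat.mul_pos hf0 hlam
  have hN' : 5000 ≤ N := by
    calc 5000 = 5000 * 1 := by ring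
      _ ≤ 5000 * (f * lam) := by gcongr
      _ = 5000 * f * lam := by ring
      _ ≤ N := hN
  have hN0 : 0 < N := by omega
  have hN1 : (1 : ℝ) ≤ N := by exact_mod_cast hN0
  set γ := D.φ D.g with hγdef
  set θ := arg γ with hθ
  have hγe : γ = exp ((θ : ℂ) * I) := by
    have := Complex.norm_mul_exp_arg_mul_I γ
    rw [hγ] at this
    rw [← this]; simp [hθ]
  have hθπ : |θ| ≤ Real.pi := Complex.abs_arg_le_pi γ
  have hpi := Real.pi_pos
  have hpi2 := pi_lt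
  have hm1 : (1 : ℝ) ≤ m := by exact_mod_cast hm
  have hm0 : (0 : ℝ) < m := by linarith
  -- the integer `k'`
  set k' : ℤ := round ((m : ℝ) * θ / (2 * Real.pi)) with hk'
  have hr := abs_sub_round ((m : ℝ) * θ / (2 * Real.pi))
  rw [← hk'] at hr
  have hmu : |(m : ℝ) * θ - 2 * Real.pi * k'| ≤ Real.pi := by
    have e : (m : ℝ) * θ - 2 * Real.pi * k' = (2 * Real.pi) * ((m : ℝ) * θ / (2 * Real.pi) - k') := by
      field_simp
    rw [e, abs_mul, abs_of_pos (by positivity : (0 : ℝ) < 2 * Real.pi)]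
    nlinarith
  have hk'm : |(k' : ℝ)| ≤ m := by
    have h1 : |(m : ℝ) * θ / (2 * Real.pi)| ≤ m / 2 := by
      rw [abs_div, abs_mul, abs_of_pos (by positivity : (0 : ℝ) < 2 * Real.pi),
        abs_of_nonneg (by positivity : (0 : ℝ) ≤ m), div_le_iff₀ (by positivity)]
      nlinarith
    have h2 : |(k' : ℝ)| ≤ |(m : ℝ) * θ / (2 * Real.pi)| + |(m : ℝ) * θ / (2 * Real.pi) - k'| := by
      have := abs_sub_abs_le_abs_sub (k' : ℝ) ((m : ℝ) * θ / (2 * Real.pi))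
      rw [abs_sub_comm] at this
      linarith
    linarith
  -- the angle is small
  have hang : |(m : ℝ) * θ - 2 * Real.pi * k'| ≤ 2 * ‖γ ^ m - 1‖ := by
    have h1 := abs_le_of_norm_exp_sub_one _ hmu
    have e : exp ((((m : ℝ) * θ - 2 * Real.pi * k' : ℝ) : ℂ) * I) = γ ^ m := by
      have e2 : (((m : ℝ) * θ - 2 * Real.pi * k' : ℝ) : ℂ) * I = (m : ℂ) * ((θ : ℂ) * I) +
          ((-k' : ℤ) : ℂ) * (2 * Real.pi * I) := by push_cast; ring
      rw [e2, exp_add, exp_int_two_pi, mul_one, exp_nat_mul, ← hγe]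
    rw [e] at h1
    exact h1
  set ζ : ℂ := exp (((2 * Real.pi * k' / m : ℝ) : ℂ) * I) with hζ
  have hζn : ‖ζ‖ = 1 := Complex.norm_exp_ofReal_mul_I _
  have hζγ : ‖ζ - γ‖ ≤ 2 * ‖γ ^ m - 1‖ := by
    rw [hζ, hγe]
    refine (norm_exp_sub_exp_le _ _).trans ?_
    rw [← hγe]
    have e : 2 * Real.pi * k' / m - θ = -((m : ℝ) * θ - 2 * Real.pi * k') / m := by
      field_simp; ring
    rw [e, abs_div, abs_neg, abs_of_pos hm0]
    refine (div_le_self (abs_nonneg _) hm1).trans hang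
  set L := N ^ 6 with hL
  have hL0 : 0 < L := by positivity
  have hL1 : (1 : ℝ) ≤ L := by exact_mod_cast hL0
  have hLr : ((L : ℕ) : ℝ) = (N : ℝ) ^ 6 := by rw [hL]; push_cast; rfl
  have hcast : ∀ c : Fin L, ((c : ℕ) : ℝ) ≤ L := fun c => by exact_mod_cast c.2.le
  have hXr : 2 * (m : ℝ) * L ≤ 2 ^ lam := by
    have : ((2 * m * N ^ 6 : ℕ) : ℝ) ≤ ((2 ^ lam : ℕ) : ℝ) := by exact_mod_cast hX
    push_cast at this
    rw [hLr]; exact this
  have hw : ∀ (k : I2 L) (j : Fin 1), |(w2 L m k' k j : ℝ)| ≤ 2 ^ lam := by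
    intro k j
    have c1 := hcast k.1
    have c2 := hcast k.2
    have d1 : (0 : ℝ) ≤ ((k.1 : ℕ) : ℝ) := by positivity
    have d2 : (0 : ℝ) ≤ ((k.2 : ℕ) : ℝ) := by positivity
    change |((((k.1 : ℕ) : ℤ) * k' + ((k.2 : ℕ) : ℤ) * m : ℤ) : ℝ)| ≤ _
    push_cast
    refine (abs_add_le _ _).trans ?_
    rw [abs_mul, abs_mul, abs_of_nonneg d1, abs_of_nonneg d2, abs_of_pos hm0]
    have g1 : ((k.1 : ℕ) : ℝ) * |(k' : ℝ)| ≤ L * m := by gcongr
    have g2 : ((k.2 : ℕ) : ℝ) * m ≤ L * m := by gcongr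
    nlinarith
  have hfreqn : ∀ k : I2 L, ‖freq (w2 L m k') (η2 m) k‖ ≤ 13 * (N : ℝ) ^ 6 := by
    intro k
    rw [freq2 L m hm, norm_mul, Complex.norm_I, mul_one, Complex.norm_real, Real.norm_eq_abs, ← hLr]
    have c1 := hcast k.1
    have c2 := hcast k.2
    have h0 : |2 * Real.pi * (k' : ℝ) / m| ≤ 2 * Real.pi := by
      rw [abs_div, abs_mul, abs_of_pos (by positivity : (0 : ℝ) < 2 * Real.pi), abs_of_pos hm0,
        div_le_iff₀ hm0]
      gcongr
    have h1 : |((k.1 : ℕ) : ℝ) * (2 * Real.pi * k' / m)| ≤ L * (2 * Real.pi) := by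
      rw [abs_mul, abs_of_nonneg (by positivity : (0 : ℝ) ≤ ((k.1 : ℕ) : ℝ))]
      gcongr
    have h2 : |((k.2 : ℕ) : ℝ) * (2 * Real.pi)| ≤ L * (2 * Real.pi) := by
      rw [abs_of_nonneg (by positivity)]
      gcongr
    have h4 := abs_add_le (((k.1 : ℕ) : ℝ) * (2 * Real.pi * k' / m)) (((k.2 : ℕ) : ℝ) * (2 * Real.pi))
    nlinarith
  set ε0 : ℝ := (1 / 2) ^ (2 * N ^ 42) with hε0
  have hε00 : 0 < ε0 := by positivity
  set eps : ℝ := (N : ℝ) ^ 18 * 2 ^ (N ^ 18) * (2 * ε0) with heps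
  have heb : eps * 2 ^ (N ^ 42) ≤ 1 := eps_bound hN'
  have heps0 : 0 < eps := by positivity
  have heps1 : eps ≤ 1 := by
    have : (1 : ℝ) ≤ 2 ^ (N ^ 42) := one_le_pow₀ (by norm_num)
    nlinarith
  -- the approximation
  have happ : ∀ (k : I2 L), ∀ s ≤ N ^ 12, ‖exp (freq (w2 L m k') (η2 m) k * s) -
      D.φ (D.g ^ (k.1 : ℕ)) ^ s‖ ≤ eps := by
    intro k s hs
    have e1 : exp (freq (w2 L m k') (η2 m) k * s) = ζ ^ ((k.1 : ℕ) * s) := by
      rw [freq2 L m hm]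
      have e2 : ((((k.1 : ℕ) : ℝ) * (2 * Real.pi * k' / m) + ((k.2 : ℕ) : ℝ) * (2 * Real.pi) : ℝ) :
          ℂ) * I * s = (((k.1 : ℕ) * s : ℕ) : ℂ) * (((2 * Real.pi * k' / m : ℝ) : ℂ) * I) +
          ((((k.2 : ℕ) : ℤ) * s : ℤ) : ℂ) * (2 * Real.pi * I) := by
        push_cast; ring
      rw [e2, exp_add, exp_int_two_pi, mul_one, exp_nat_mul]
    have e3 : D.φ (D.g ^ (k.1 : ℕ)) ^ s = γ ^ ((k.1 : ℕ) * s) := by
      rw [map_pow, ← pow_mul]
    rw [e1, e3]
    refine (norm_pow_sub_pow_le (c := 2) (by norm_num) (by rw [hζn]; norm_num)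
      (by rw [hγ]; norm_num) _).trans ?_
    have hks : (k.1 : ℕ) * s ≤ N ^ 18 := by
      calc (k.1 : ℕ) * s ≤ N ^ 6 * N ^ 12 := Nat.mul_le_mul k.1.2.le hs
        _ = N ^ 18 := by ring
    have hks' : (((k.1 : ℕ) * s : ℕ) : ℝ) ≤ (N : ℝ) ^ 18 := by exact_mod_cast hks
    have h2p : (2 : ℝ) ^ ((k.1 : ℕ) * s) ≤ 2 ^ (N ^ 18) := pow_le_pow_right₀ (by norm_num) hks
    have h3 : ‖ζ - γ‖ ≤ 2 * ε0 := by linarith
    rw [heps]
    calc (((k.1 : ℕ) * s : ℕ) : ℝ) * 2 ^ ((k.1 : ℕ) * s) * ‖ζ - γ‖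
        ≤ (N : ℝ) ^ 18 * 2 ^ (N ^ 18) * (2 * ε0) := by gcongr
      _ = _ := rfl
  let B : Setup K :=
    { φ := D.φ
      ι := I2 L
      fι := inferInstance
      q := 1
      w := w2 L m k'
      η := η2 m
      al := fun k => D.g ^ (k.1 : ℕ)
      A := D.a ^ (2 * L)
      hA := pow_pos D.ha _
      hint := fun k => by
        have := D.isIntegral_mul_pow (L := L) k.1.2 hL0
        rwa [pow_zero, mul_one] at this
      H := D.h ^ (2 * L)
      hH := one_le_pow₀ D.hh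
      hconj := fun τ k => by
        have := D.norm_conj_le (L := L) k.1.2 hL0 τ
        rwa [pow_zero, mul_one] at this
      X := 2 ^ lam
      hX := one_le_pow₀ (by norm_num)
      hw := hw
      hη := by
        rw [Fin.sum_univ_one]
        change ‖(2 * Real.pi * I / (m : ℂ) : ℂ)‖ ≤ 10
        rw [norm_div, norm_two_pi_I, Complex.norm_natCast]
        refine (div_le_self (by positivity) hm1).trans ?_
        linarith
      Ω := 13 * (N : ℝ) ^ 6
      hΩ := hfreqn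
      hre := fun k => by
        rw [freq2 L m hm]
        simp
      eps := eps
      heps0 := heps0
      heps := heps1
      Smax := N ^ 12
      happ := happ }
  have hBA : ((B.A : ℕ) : ℝ) * B.H ≤ 2 ^ (2 * lam * N ^ 6) := by
    change ((D.a ^ (2 * L) : ℕ) : ℝ) * D.h ^ (2 * L) ≤ _
    push_cast
    rw [← mul_pow]
    have h0 : 0 ≤ (D.a : ℝ) * D.h := by have := D.hh; positivity
    refine (pow_le_two_pow h0 hah _).trans (pow_le_pow_right₀ (by norm_num) ?_)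
    rw [hL]
    exact le_of_eq (by ring)
  have hcard : Fintype.card B.ι = N ^ 12 := by
    change Fintype.card (I2 L) = N ^ 12
    simp only [I2, Fintype.card_prod, Fintype.card_fin]
    rw [hL]; ring
  obtain ⟨p, hp0, hp⟩ := B.core N lam hlam hN (by change 1 ≤ 2; norm_num) le_rfl hBA le_rfl le_rfl
    heb (by
    rw [hcard]
    change 8 * f * ((12 * N ^ 8) ^ 1 * N) ≤ N ^ 12
    calc 8 * f * ((12 * N ^ 8) ^ 1 * N) = (96 * f) * N ^ 9 := by ring
      _ ≤ (5000 * f * lam) * N ^ 9 := by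
          refine Nat.mul_le_mul_right _ ?_
          calc 96 * f ≤ 5000 * f := Nat.mul_le_mul_right _ (by norm_num)
            _ = 5000 * f * 1 := by ring
            _ ≤ 5000 * f * lam := Nat.mul_le_mul_left _ hlam
      _ ≤ N * N ^ 9 := by gcongr
      _ = N ^ 10 := by ring
      _ ≤ N ^ 12 := Nat.pow_le_pow_right hN0 (by norm_num))
    (by rw [hcard]; exact Nat.pow_le_pow_right hN0 (by norm_num))
  -- powers of `g` are distinct
  have hg0 : D.g ≠ 0 := by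
    intro h
    rw [hγdef, h, map_zero, norm_zero] at hγ
    norm_num at hγ
  have hinj : ∀ i j : ℕ, D.g ^ i = D.g ^ j → i = j := by
    have key : ∀ i j : ℕ, i < j → D.g ^ i ≠ D.g ^ j := by
      intro i j hij h
      obtain ⟨c, rfl⟩ := Nat.exists_eq_add_of_le hij.le
      have hc : 0 < c := by omega
      apply htor c hc
      have h1 : D.g ^ i * D.g ^ c = D.g ^ i * 1 := by rw [← pow_add, ← h, mul_one]
      exact mul_left_cancel₀ (pow_ne_zero _ hg0) h1
    intro i j h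
    rcases lt_trichotomy i j with h1 | h1 | h1
    · exact absurd h (key i j h1)
    · exact h1
    · exact absurd h.symm (key j i h1)
  apply hp0
  refine zero_est (w2 L m k') (fun k : I2 L => D.g ^ (k.1 : ℕ)) 0 (N ^ 8)
    (N ^ 12) p ?_ ?_ ?_ hp
  · have h1 : (univ.image fun k : I2 L => D.g ^ (k.1 : ℕ)) ⊆
        univ.image (fun c : Fin L => D.g ^ (c : ℕ)) := by
      intro x hx
      obtain ⟨k, _, rfl⟩ := Finset.mem_image.1 hx
      exact Finset.mem_image.2 ⟨k.1, mem_univ _, rfl⟩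
    refine (Finset.card_le_card h1).trans (Finset.card_image_le.trans ?_)
    rw [Finset.card_univ, Fintype.card_fin, hL]
    exact Nat.pow_le_pow_right hN0 (by norm_num)
  · intro x
    have h1 : (univ.filter fun k : I2 L => D.g ^ (k.1 : ℕ) = x).card ≤
        (univ : Finset (Fin L)).card := by
      refine Finset.card_le_card_of_injOn (fun k => k.2) (fun _ _ => mem_univ _) ?_
      intro k hk k₂ hk₂ hkk
      have g1 := (Finset.mem_filter.1 hk).2
      have g2 := (Finset.mem_filter.1 hk₂).2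
      exact Prod.ext (Fin.ext (hinj _ _ (g1.trans g2.symm))) hkk
    refine h1.trans ?_
    rw [Finset.card_univ, Fintype.card_fin, hL]
    exact Nat.pow_le_pow_right hN0 (by norm_num)
  · intro k k₂ hkk hww
    have g3 := hinj _ _ hkk
    change ((k.1 : ℕ) : ℤ) * k' + ((k.2 : ℕ) : ℤ) * m =
      ((k₂.1 : ℕ) : ℤ) * k' + ((k₂.2 : ℕ) : ℤ) * m at hww
    rw [g3] at hww
    have hmz : (m : ℤ) ≠ 0 := by exact_mod_cast (by omega : m ≠ 0)
    have g4 : ((k.2 : ℕ) : ℤ) = ((k₂.2 : ℕ) : ℤ) := mul_right_cancel₀ hmz (by linarith)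
    exact Prod.ext (Fin.ext g3) (Fin.ext (by exact_mod_cast g4))

end Pool.Agent.BakerGap
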