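import Mathlib
import Pool.Agent.BakerGap.Three
import Pool.Agent.BakerGap.Two
import Pool.Agent.BakerGap.Field

set_option autoImplicit false

/-!
Effective lower bounds for `γ ^ n - β` and for `B (γ ^ n)`.
-/

namespace Pool.Agent.BakerGap

open Polynomial Filter

theorem small_false (d e n N lam : ℕ) (γ β : ℂ) (g B : ℤ[X]) (hg0 : g ≠ 0) (hg : aeval γ g = 0)
    (hgd : g.natDegree ≤ d) (hgc : ∀ i, |g.coeff i| ≤ 2 ^ d) (hB0 : B ≠ 0) (hB : aeval β B = 0)
    (hBd : B.natDegree ≤ e) (hBc : ∀ i, |B.coeff i| ≤ 2 ^ e) (hγ : ‖γ‖ = 1)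
    (htor : ∀ j : ℕ, 0 < j → γ ^ j ≠ 1) (hlam : 2 * (d + e) + 1 ≤ lam)
    (hN : 5000 * (d * e) * lam ≤ N) (hX : 4 * n * N ^ 12 ≤ 2 ^ lam) (hn : N ^ 6 ≤ n)
    (hsmall : ‖γ ^ n - β‖ ≤ (1 / 2) ^ (4 * N ^ 42)) : False := by
  obtain ⟨K, iK, iN, E, hEg, hEb, hEf, hEa⟩ := exists_NF d e γ β g B hg0 hg hgd hgc hB0 hB hBd hBc
  have hlam1 : 1 ≤ lam := by omega
  have hf0 : 1 ≤ Module.finrank ℚ K := Module.finrank_pos
  have hN1 : 5000 * Module.finrank ℚ K * lam ≤ N := le_trans (by gcongr) hN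
  have hN5 : 5000 ≤ N := by
    have h1 : 1 ≤ Module.finrank ℚ K * lam := Nat.mul_pos hf0 hlam1
    calc 5000 = 5000 * 1 := by ring
      _ ≤ 5000 * (Module.finrank ℚ K * lam) := by gcongr
      _ = 5000 * Module.finrank ℚ K * lam := by ring
      _ ≤ N := hN1
  have hN0 : 0 < N := by omega
  have hn1 : 1 ≤ n := le_trans (Nat.one_le_pow _ _ hN0) hn
  have hah : E.a * E.h ≤ 2 ^ lam := hEa.trans (pow_le_pow_right₀ (by norm_num) hlam)
  have hφγ : ‖E.φ E.g‖ = 1 := by rw [hEg]; exact hγ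
  have hN12 : N ^ 6 ≤ N ^ 12 := Nat.pow_le_pow_right hN0 (by norm_num)
  have hsm1 : ((1 / 2 : ℝ)) ^ (4 * N ^ 42) ≤ (1 / 2) ^ (2 * N ^ 42) :=
    pow_le_pow_of_le_one (by norm_num) (by norm_num) (by omega)
  by_cases hinj : ∀ a b a' b' : ℕ, a < N ^ 6 → b < N ^ 6 → a' < N ^ 6 → b' < N ^ 6 →
      E.g ^ a * E.b ^ b = E.g ^ a' * E.b ^ b' → a = a' ∧ b = b'
  · refine three_logs E hφγ n N lam hn1 hlam1 hN1 hah ?_ hinj ?_
    · calc 2 * n * N ^ 6 ≤ 4 * n * N ^ 12 := by gcongr; norm_num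
        _ ≤ 2 ^ lam := hX
    · rw [hEg, hEb]; exact hsmall.trans hsm1
  · push Not at hinj
    obtain ⟨a, b, a', b', ha, hb, ha', hb', heq, hne⟩ := hinj
    have hg0' : E.g ≠ 0 := by
      intro h
      rw [h, map_zero, norm_zero] at hφγ
      norm_num at hφγ
    have hhalf : ((1 / 2 : ℝ)) ^ (4 * N ^ 42) ≤ 1 / 2 := by
      calc ((1 / 2 : ℝ)) ^ (4 * N ^ 42) ≤ (1 / 2) ^ 1 :=
            pow_le_pow_of_le_one (by norm_num) (by norm_num) (by
              have : 0 < N ^ 42 := by positivity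
              omega)
        _ = 1 / 2 := by norm_num
    have hγn : ‖γ ^ n‖ = 1 := by rw [norm_pow, hγ, one_pow]
    have hβ0 : β ≠ 0 := by
      intro h
      rw [h, sub_zero, hγn] at hsmall
      linarith
    have hβ2 : ‖β‖ ≤ 2 := by
      have h2 := norm_sub_norm_le β (γ ^ n)
      rw [norm_sub_rev] at h2
      linarith
    have hb0 : E.b ≠ 0 := by
      intro h
      rw [h, map_zero] at hEb
      exact hβ0 hEb.symm
    have htorK : ∀ j : ℕ, 0 < j → E.g ^ j ≠ 1 := by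
      intro j hj h
      apply htor j hj
      have h1 := congrArg E.φ h
      rw [map_pow, hEg, map_one] at h1
      exact h1
    have hginj : ∀ i j : ℕ, i < j → E.g ^ i ≠ E.g ^ j := by
      intro i j hij h
      obtain ⟨c, rfl⟩ := Nat.exists_eq_add_of_le hij.le
      have hc : 0 < c := by omega
      apply htorK c hc
      have h1 : E.g ^ i * E.g ^ c = E.g ^ i * 1 := by rw [← pow_add, ← h, mul_one]
      exact mul_left_cancel₀ (pow_ne_zero _ hg0') h1
    have hbb : b ≠ b' := by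
      intro h
      subst h
      have h1 := mul_right_cancel₀ (pow_ne_zero _ hb0) heq
      have h2 : a ≠ a' := fun h => (hne h) rfl
      rcases lt_or_gt_of_ne h2 with h3 | h3
      · exact hginj a a' h3 h1
      · exact hginj a' a h3 h1.symm
    -- reduce to `b' < b`
    have key : ∀ a b a' b' : ℕ, a < N ^ 6 → b < N ^ 6 → a' < N ^ 6 → b' < b →
        E.g ^ a * E.b ^ b = E.g ^ a' * E.b ^ b' → False := by
      intro a b a' b' ha hb ha' hlt heq
      obtain ⟨c, rfl⟩ := Nat.exists_eq_add_of_le hlt.le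
      have hc : 0 < c := by omega
      have h1 : E.g ^ a * E.b ^ c = E.g ^ a' := by
        have h2 : E.b ^ b' * (E.g ^ a * E.b ^ c) = E.b ^ b' * E.g ^ a' := by
          rw [pow_add] at heq
          linear_combination heq
        exact mul_left_cancel₀ (pow_ne_zero _ hb0) h2
      have h3 : γ ^ a * β ^ c = γ ^ a' := by
        have := congrArg E.φ h1
        rwa [map_mul, map_pow, map_pow, map_pow, hEg, hEb] at this
      obtain ⟨m, hm⟩ : ∃ m, n * c + a = a' + m := by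
        have : a' ≤ n * c + a := by
          have : n ≤ n * c := Nat.le_mul_of_pos_right _ hc
          omega
        exact Nat.exists_eq_add_of_le this
      have hm1 : 1 ≤ m := by
        have : n ≤ n * c := Nat.le_mul_of_pos_right _ hc
        omega
      have hγ0 : γ ≠ 0 := by
        intro h; rw [h, norm_zero] at hγ; norm_num at hγ
      have h4 : ‖γ ^ m - 1‖ = ‖(γ ^ n) ^ c - β ^ c‖ := by
        have e1 : γ ^ a' * (γ ^ m - 1) = γ ^ a * ((γ ^ n) ^ c - β ^ c) := by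
          have e2 : γ ^ a' * γ ^ m = γ ^ a * (γ ^ n) ^ c := by
            rw [← pow_add, ← hm, pow_add, pow_mul, mul_comm]
          rw [mul_sub, mul_sub, e2, mul_one, h3]
        have e3 := congrArg norm e1
        rw [norm_mul, norm_mul, norm_pow, norm_pow, hγ, one_pow, one_pow, one_mul, one_mul] at e3
        exact e3
      have h5 := norm_pow_sub_pow_le (c := 2) (by norm_num) (by rw [hγn]; norm_num) hβ2 c
      rw [← h4] at h5
      have hcN : c ≤ N ^ 6 := by omega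
      refine two_logs E hφγ htorK m N lam hm1 hlam1 hN1 hah ?_ ?_
      · have hmn : m ≤ 2 * n * N ^ 6 := by
          have g1 : n * c ≤ n * N ^ 6 := Nat.mul_le_mul_left _ hcN
          have g2 : N ^ 6 ≤ n * N ^ 6 := Nat.le_mul_of_pos_left _ hn1
          have g3 : 2 * n * N ^ 6 = n * N ^ 6 + n * N ^ 6 := by ring
          omega
        calc 2 * m * N ^ 6 ≤ 2 * (2 * n * N ^ 6) * N ^ 6 := by gcongr
          _ = 4 * n * N ^ 12 := by ring
          _ ≤ 2 ^ lam := hX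
      · rw [hEg]
        refine h5.trans ?_
        have g1 : (c : ℝ) * 2 ^ c ≤ 2 ^ (2 * N ^ 42) := by
          have g2 : (c : ℝ) ≤ 2 ^ c := by exact_mod_cast Nat.lt_two_pow_self.le
          have g3 : (c : ℝ) * 2 ^ c ≤ 2 ^ (c + c) := mul_le_two_pow g2 (by positivity) le_rfl
          refine g3.trans (pow_le_pow_right₀ (by norm_num) ?_)
          have : N ^ 6 ≤ N ^ 42 := Nat.pow_le_pow_right hN0 (by norm_num)
          omega
        calc (c : ℝ) * 2 ^ c * ‖γ ^ n - β‖ ≤ 2 ^ (2 * N ^ 42) * (1 / 2) ^ (4 * N ^ 42) := by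
              gcongr
          _ = (1 / 2) ^ (2 * N ^ 42) := by
              have e : 4 * N ^ 42 = 2 * N ^ 42 + 2 * N ^ 42 := by ring
              rw [e, pow_add, ← mul_assoc, ← mul_pow]
              norm_num
    rcases lt_or_gt_of_ne hbb with h | h
    · exact key a' b' a b ha' hb' ha h heq.symm
    · exact key a b a' b' ha hb ha' h heq

theorem exists_poly_bound : ∃ K : ℕ, ∀ r : ℕ, (r + 2) ^ 168 ≤ K * 2 ^ r := by
  have h1 : Tendsto (fun n : ℕ => (n : ℝ) ^ 168 / (2 : ℝ) ^ n) atTop (nhds 0) :=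
    tendsto_pow_const_div_const_pow_of_one_lt 168 (by norm_num)
  obtain ⟨K, hK⟩ := h1.bddAbove_range
  refine ⟨4 * ⌈K⌉₊, fun r => ?_⟩
  have h2 : ((r + 2 : ℕ) : ℝ) ^ 168 / (2 : ℝ) ^ (r + 2) ≤ K := hK ⟨r + 2, rfl⟩
  rw [div_le_iff₀ (by positivity)] at h2
  have h3 : ((r + 2 : ℕ) : ℝ) ^ 168 ≤ ((4 * ⌈K⌉₊ * 2 ^ r : ℕ) : ℝ) := by
    refine h2.trans ?_
    push_cast
    have := Nat.le_ceil K
    calc K * 2 ^ (r + 2) ≤ (⌈K⌉₊ : ℝ) * 2 ^ (r + 2) := by gcongr
      _ = 4 * (⌈K⌉₊ : ℝ) * 2 ^ r := by ring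
  exact_mod_cast h3

/-- The elementary inequality for the thresholds. -/
theorem exists_threshold : ∃ C : ℕ, ∀ z n : ℕ, 3 ≤ z → z ^ C ≤ n →
    2 ^ 926 * z ^ 253 * (Nat.log 2 n + 2) ^ 84 ≤ n := by
  obtain ⟨K, hK⟩ := exists_poly_bound
  refine ⟨506 + (1852 + K), fun z n hz hn => ?_⟩
  have hz0 : 0 < z := by omega
  have hn0 : 0 < n := lt_of_lt_of_le (by positivity) hn
  set r := Nat.log 2 n with hr
  have h2r : 2 ^ r ≤ n := Nat.pow_log_le_self 2 hn0.ne'
  have h1 : (2 ^ 926 * z ^ 253 * (r + 2) ^ 84) ^ 2 ≤ n ^ 2 := by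
    have hKz : 2 ^ 1852 * K ≤ z ^ (1852 + K) := by
      rw [pow_add]
      have g1 : 2 ^ 1852 ≤ z ^ 1852 := Nat.pow_le_pow_left (by omega) _
      have g2 : K ≤ z ^ K := (Nat.lt_pow_self (by omega)).le
      exact Nat.mul_le_mul g1 g2
    calc (2 ^ 926 * z ^ 253 * (r + 2) ^ 84) ^ 2 = 2 ^ 1852 * z ^ 506 * (r + 2) ^ 168 := by
          rw [mul_pow, mul_pow, ← pow_mul, ← pow_mul, ← pow_mul]
      _ ≤ 2 ^ 1852 * z ^ 506 * (K * 2 ^ r) := Nat.mul_le_mul_left _ (hK r)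
      _ = z ^ 506 * (2 ^ 1852 * K) * 2 ^ r := by ring
      _ ≤ z ^ 506 * z ^ (1852 + K) * 2 ^ r := by gcongr
      _ = z ^ (506 + (1852 + K)) * 2 ^ r := by rw [← pow_add]
      _ ≤ n * n := Nat.mul_le_mul hn h2r
      _ = n ^ 2 := by ring
  exact (Nat.pow_le_pow_iff_left (by norm_num)).1 h1

end Pool.Agent.BakerGap
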