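import Mathlib
import Pool.Agent.BakerGap.Final

set_option autoImplicit false

/-!
Effective lower bounds for `γ ^ n - β` and for `B (γ ^ n)`, `γ` of absolute value one and not a
root of unity.
-/

namespace Pool.Agent.BakerGap

open Polynomial

/-- Effective lower bound for `γ ^ n - β`. -/
theorem root_gap : ∃ C : ℕ, ∀ (d e M n : ℕ) (γ β : ℂ) (g B : ℤ[X]), g ≠ 0 → aeval γ g = 0 →
    ‖γ‖ = 1 → (∀ j : ℕ, 0 < j → γ ^ j ≠ 1) → g.natDegree ≤ d → (∀ i, |g.coeff i| ≤ 2 ^ d) →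
    B ≠ 0 → aeval β B = 0 → B.natDegree ≤ e → (∀ i, |B.coeff i| ≤ 2 ^ e) → 0 < M →
    (2 + d + e + M) ^ C ≤ n → Real.exp (-(n : ℝ) / M) ≤ ‖γ ^ n - β‖ := by
  obtain ⟨C, hC⟩ := exists_threshold
  refine ⟨C, ?_⟩
  intro d e M n γ β g B hg0 hg hγ htor hgd hgc hB0 hB hBd hBc hM hn
  obtain ⟨z, hz⟩ : ∃ z, z = 2 + d + e + M := ⟨_, rfl⟩
  rw [← hz] at hn
  have hz3 : 3 ≤ z := by omega
  have hz0 : 0 < z := by omega
  have hth := hC z n hz3 hn
  have hn0 : 0 < n := lt_of_lt_of_le (by positivity) hth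
  obtain ⟨r, hr⟩ : ∃ r, r = Nat.log 2 n := ⟨_, rfl⟩
  rw [← hr] at hth
  by_contra hcon
  rw [not_le] at hcon
  -- parameters
  obtain ⟨y, hy⟩ : ∃ y, y = z ^ 3 * (r + 2) := ⟨_, rfl⟩
  have hy0 : 0 < y := by rw [hy]; positivity
  obtain ⟨N, hN⟩ : ∃ N, N = 2 ^ 22 * y ^ 2 := ⟨_, rfl⟩
  have hN0 : 0 < N := by rw [hN]; positivity
  obtain ⟨lam, hlam⟩ : ∃ lam, lam = 2 * z + r + 291 + 24 * Nat.log 2 y := ⟨_, rfl⟩
  have hzy : z ^ 3 ≤ y := by rw [hy]; exact Nat.le_mul_of_pos_right _ (by omega)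
  have hz2y : z ^ 2 ≤ y := le_trans (Nat.pow_le_pow_right hz0 (by norm_num)) hzy
  have hyy : y ≤ y ^ 2 := by rw [pow_two]; exact Nat.le_mul_of_pos_right _ hy0
  have hN5 : 5000 * (d * e) * lam ≤ N := by
    have h1 : d * e ≤ z ^ 2 := by
      rw [pow_two]; exact Nat.mul_le_mul (by omega) (by omega)
    have h2 : Nat.log 2 y ≤ y := Nat.log_le_self 2 y
    have h3 : z ^ 2 * r ≤ y := by
      rw [hy]
      exact Nat.mul_le_mul (Nat.pow_le_pow_right hz0 (by norm_num)) (by omega)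
    have h4 : z ^ 2 * y ≤ y ^ 2 := by rw [pow_two y]; exact Nat.mul_le_mul_right _ hz2y
    have h5 : z ^ 2 * Nat.log 2 y ≤ z ^ 2 * y := Nat.mul_le_mul_left _ h2
    calc 5000 * (d * e) * lam ≤ 5000 * z ^ 2 * lam := by gcongr
      _ = 5000 * (2 * z ^ 3 + z ^ 2 * r + 291 * z ^ 2 + 24 * (z ^ 2 * Nat.log 2 y)) := by
          rw [hlam]; ring
      _ ≤ 5000 * (2 * y ^ 2 + y ^ 2 + 291 * y ^ 2 + 24 * y ^ 2) := by
          have g1 : z ^ 3 ≤ y ^ 2 := hzy.trans hyy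
          have g2 : z ^ 2 * r ≤ y ^ 2 := h3.trans hyy
          have g3 : z ^ 2 ≤ y ^ 2 := hz2y.trans hyy
          have g4 : z ^ 2 * Nat.log 2 y ≤ y ^ 2 := h5.trans h4
          gcongr
      _ ≤ N := by rw [hN]; norm_num; nlinarith [hyy, hy0]
  have hlam1 : 2 * (d + e) + 1 ≤ lam := by omega
  have hylog : y < 2 ^ (Nat.log 2 y + 1) := Nat.lt_pow_succ_log_self (by norm_num) y
  have hnlog : n < 2 ^ (r + 1) := by rw [hr]; exact Nat.lt_pow_succ_log_self (by norm_num) n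
  have hX : 4 * n * N ^ 12 ≤ 2 ^ lam := by
    calc 4 * n * N ^ 12 = 2 ^ 266 * n * y ^ 24 := by
          have e1 : (2 : ℕ) ^ 266 = 4 * 2 ^ 264 := by
            rw [show (4 : ℕ) = 2 ^ 2 by norm_num, ← pow_add]
          rw [hN, e1, mul_pow, ← pow_mul, ← pow_mul]
          norm_num only
          generalize (2 : ℕ) ^ 264 = c
          ring
      _ ≤ 2 ^ 266 * 2 ^ (r + 1) * (2 ^ (Nat.log 2 y + 1)) ^ 24 := by
          gcongr
      _ = 2 ^ (266 + (r + 1) + (Nat.log 2 y + 1) * 24) := by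
          rw [← pow_mul, ← pow_add, ← pow_add]
      _ ≤ 2 ^ lam := Nat.pow_le_pow_right (by norm_num) (by rw [hlam]; omega)
  -- the threshold
  have hy84 : y ^ 84 = z ^ 252 * (r + 2) ^ 84 := by rw [hy, mul_pow, ← pow_mul]
  have hN42 : N ^ 42 = 2 ^ 924 * y ^ 84 := by rw [hN, mul_pow, ← pow_mul, ← pow_mul]
  have hMn : 4 * N ^ 42 * M ≤ n := by
    calc 4 * N ^ 42 * M ≤ 4 * N ^ 42 * z := by gcongr; omega
      _ = 2 ^ 926 * z ^ 253 * (r + 2) ^ 84 := by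
          rw [hN42, hy84]
          have e1 : (2 : ℕ) ^ 926 = 4 * 2 ^ 924 := by
            rw [show (4 : ℕ) = 2 ^ 2 by norm_num, ← pow_add]
          rw [e1]; ring
      _ ≤ n := hth
  have hN6 : N ^ 6 ≤ n := by
    calc N ^ 6 ≤ N ^ 42 := Nat.pow_le_pow_right hN0 (by norm_num)
      _ = 1 * N ^ 42 * 1 := by ring
      _ ≤ 4 * N ^ 42 * M := by gcongr <;> omega
      _ ≤ n := hMn
  refine small_false d e n N lam γ β g B hg0 hg hgd hgc hB0 hB hBd hBc hγ htor hlam1 hN5 hX hN6 ?_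
  refine hcon.le.trans ?_
  have hM0 : (0 : ℝ) < M := by exact_mod_cast hM
  have h1 : ((4 * N ^ 42 : ℕ) : ℝ) ≤ n / M := by
    rw [le_div_iff₀ hM0]; exact_mod_cast hMn
  have h2 : Real.exp (-1) ≤ 1 / 2 := by
    rw [Real.exp_neg, one_div]
    have := Real.add_one_le_exp (1 : ℝ)
    exact inv_anti₀ (by norm_num) (by linarith)
  calc Real.exp (-(n : ℝ) / M) ≤ Real.exp (((4 * N ^ 42 : ℕ) : ℝ) * (-1)) := by
        apply Real.exp_le_exp.2
        rw [neg_div]; linarith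
    _ = Real.exp (-1) ^ (4 * N ^ 42) := by rw [Real.exp_nat_mul]
    _ ≤ (1 / 2) ^ (4 * N ^ 42) := pow_le_pow_left₀ (Real.exp_pos _).le h2 _

/-- Effective lower bound for `B (γ ^ n)`. -/
theorem gap : ∃ C : ℕ, ∀ (d D M n : ℕ) (γ : ℂ) (g B : ℤ[X]), g ≠ 0 → aeval γ g = 0 →
    ‖γ‖ = 1 → (∀ j : ℕ, 0 < j → γ ^ j ≠ 1) → g.natDegree ≤ d → (∀ i, |g.coeff i| ≤ 2 ^ d) →
    B ≠ 0 → B.natDegree ≤ D → (∀ i, |B.coeff i| ≤ 2 ^ D) → 0 < M →
    (2 + d + D + M) ^ C ≤ n → Real.exp (-(n : ℝ) / M) ≤ ‖aeval (γ ^ n) B‖ := by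
  obtain ⟨C, hC⟩ := root_gap
  refine ⟨2 * C, ?_⟩
  intro d D M n γ g B hg0 hg hγ htor hgd hgc hB0 hBd hBc hM hn
  have hn' : (2 + d + D + M * (D + 1)) ^ C ≤ n := by
    refine le_trans ?_ hn
    rw [pow_mul]
    refine Nat.pow_le_pow_left ?_ C
    nlinarith
  have hM' : 0 < M * (D + 1) := by positivity
  have hM0 : (0 : ℝ) < M := by exact_mod_cast hM
  have hinj : Function.Injective (Int.castRingHom ℂ) := fun a b h => by
    have : (a : ℂ) = b := h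
    exact_mod_cast this
  set P : ℂ[X] := B.map (Int.castRingHom ℂ) with hP
  have hP0 : P ≠ 0 := by
    rw [hP, Ne, Polynomial.map_eq_zero_iff hinj]; exact hB0
  have hPx : aeval (γ ^ n) B = P.eval (γ ^ n) := by
    rw [hP, eval_map, aeval_def]; rfl
  have hsp : P.Splits := IsAlgClosed.splits P
  have hev := hsp.eval_eq_prod_roots (γ ^ n)
  set q0 : ℝ := Real.exp (-(n : ℝ) / ((M * (D + 1) : ℕ) : ℝ)) with hq0
  have hq00 : 0 < q0 := Real.exp_pos _
  have hroot : ∀ β ∈ P.roots, q0 ≤ ‖γ ^ n - β‖ := by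
    intro β hβ
    have h1 : P.IsRoot β := (mem_roots hP0).1 hβ
    have h2 : aeval β B = 0 := by
      rw [IsRoot.def, hP, eval_map] at h1
      rw [aeval_def]
      exact h1
    exact hC d D (M * (D + 1)) n γ β g B hg0 hg hγ htor hgd hgc hB0 h2 hBd hBc hM' hn'
  have hprod : q0 ^ Multiset.card P.roots ≤ ‖(P.roots.map fun β => γ ^ n - β).prod‖ := by
    have key : ∀ s : Multiset ℂ, (∀ β ∈ s, q0 ≤ ‖γ ^ n - β‖) →
        q0 ^ Multiset.card s ≤ ‖(s.map fun β => γ ^ n - β).prod‖ := by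
      intro s
      induction s using Multiset.induction_on with
      | empty => intro _; simp
      | cons a s ih =>
        intro h
        rw [Multiset.card_cons, Multiset.map_cons, Multiset.prod_cons, norm_mul, pow_succ']
        have h1 := h a (Multiset.mem_cons_self a s)
        have h2 := ih fun β hβ => h β (Multiset.mem_cons_of_mem hβ)
        gcongr
    exact key _ hroot
  have hlc : 1 ≤ ‖P.leadingCoeff‖ := by
    rw [hP, leadingCoeff_map_of_injective hinj]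
    change (1 : ℝ) ≤ ‖((B.leadingCoeff : ℤ) : ℂ)‖
    rw [Complex.norm_intCast]
    exact_mod_cast Int.one_le_abs (leadingCoeff_ne_zero.2 hB0)
  have hcard : Multiset.card P.roots ≤ D := by
    refine (card_roots' P).trans ?_
    rw [hP, natDegree_map_eq_of_injective hinj]
    exact hBd
  rw [hPx, hev, norm_mul]
  have hn0 : (0 : ℝ) ≤ n := by positivity
  have hq1 : q0 ≤ 1 := by
    rw [hq0]
    apply Real.exp_le_one_iff.2
    rw [neg_div]
    have : 0 ≤ (n : ℝ) / ((M * (D + 1) : ℕ) : ℝ) := by positivity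
    linarith
  have hexp : Real.exp (-(n : ℝ) / M) ≤ q0 ^ D := by
    rw [hq0, ← Real.exp_nat_mul]
    apply Real.exp_le_exp.2
    push_cast
    rw [neg_div, neg_div, mul_neg, neg_le_neg_iff, ← mul_div_assoc, div_le_div_iff₀ (by positivity)
      hM0]
    have hD0 : (0 : ℝ) ≤ D := by positivity
    nlinarith [mul_nonneg hn0 hM0.le]
  calc Real.exp (-(n : ℝ) / M) ≤ q0 ^ D := hexp
    _ ≤ q0 ^ Multiset.card P.roots := pow_le_pow_of_le_one hq00.le hq1 hcard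
    _ ≤ ‖(P.roots.map fun β => γ ^ n - β).prod‖ := hprod
    _ = 1 * ‖(P.roots.map fun β => γ ^ n - β).prod‖ := by ring
    _ ≤ ‖P.leadingCoeff‖ * ‖(P.roots.map fun β => γ ^ n - β).prod‖ := by gcongr

end Pool.Agent.BakerGap
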